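import Mathlib

/-!
The complex structured singular value and its approximation problem.
-/

namespace Pool.Agent.MP_54e0c2_lc

open scoped Matrix.Norms.L2Operator

/-- An input of the approximation problem: a block structure with the block sizes
`k 0, ..., k (m-1)` and a square matrix with Gaussian rational entries (pairs of rationals: real
part, imaginary part) whose rows and columns are indexed by the pairs
(block, position inside the block). -/
structure Inst where
  m : ℕ
  mpos : 0 < m
  k : Fin m → ℕ
  kpos : ∀ i, 0 < k i
  M : Matrix (Σ i, Fin (k i)) (Σ i, Fin (k i)) (ℚ × ℚ)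

/-- The complex number with the given real and imaginary parts. -/
def toC (z : ℚ × ℚ) : ℂ := (z.1 : ℂ) + (z.2 : ℂ) * Complex.I

/-- The set `B(K)`: block diagonal matrices whose diagonal blocks have spectral norm at most 1. -/
def BK {m : ℕ} (k : Fin m → ℕ) : Set (Matrix (Σ i, Fin (k i)) (Σ i, Fin (k i)) ℂ) :=
  {Δ | ∃ D : ∀ i, Matrix (Fin (k i)) (Fin (k i)) ℂ, (∀ i, ‖D i‖ ≤ 1) ∧
    Δ = Matrix.blockDiagonal' D}

/-- The complex structured singular value of a complex matrix. -/
noncomputable def mu {m : ℕ} (k : Fin m → ℕ)
    (M : Matrix (Σ i, Fin (k i)) (Σ i, Fin (k i)) ℂ) : ℝ :=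
  sInf {ρ : ℝ | 0 < ρ ∧ ∀ Δ ∈ BK k, (1 - ((ρ : ℂ)⁻¹) • (Δ * M)).det ≠ 0}

/-- The complex structured singular value of an input. -/
noncomputable def Inst.mu (I : Inst) : ℝ := MP_54e0c2_lc.mu I.k (I.M.map toC)

/-- `q` is an `r`-approximation of `μ` (from above or from below). -/
def IsApprox (r μ q : ℝ) : Prop := (μ ≤ q ∧ q ≤ (1 + r) * μ) ∨ (μ / (1 + r) ≤ q ∧ q ≤ μ)

/-! ### Coding of inputs by bit strings; all numbers are written in binary -/

/-- a natural number in binary, each bit preceded by `true`, the end marked by `false` -/
def encNat (n : ℕ) : List Bool :=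
  (Computability.encodeNat n).flatMap (fun b => [true, b]) ++ [false]

/-- a rational number: sign, numerator, denominator -/
def encRat (q : ℚ) : List Bool :=
  decide (q.num < 0) :: (encNat q.num.natAbs ++ encNat q.den)

/-- a Gaussian rational: real part, imaginary part -/
def encGauss (z : ℚ × ℚ) : List Bool := encRat z.1 ++ encRat z.2

/-- the index set of the rows (and columns), in order -/
def indices {m : ℕ} (k : Fin m → ℕ) : List (Σ i, Fin (k i)) :=
  (List.finRange m).flatMap fun i => (List.finRange (k i)).map fun a => ⟨i, a⟩

/-- the code of an input: number of blocks, block sizes, entries of the matrix row by row -/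
def Inst.encode (I : Inst) : List Bool :=
  encNat I.m ++ (List.finRange I.m).flatMap (fun i => encNat (I.k i)) ++
    (indices I.k).flatMap fun p => (indices I.k).flatMap fun q => encGauss (I.M p q)

end Pool.Agent.MP_54e0c2_lc
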