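import Pool.Agent.MP_54e0c2_lc.Poly

/-!
Hardness of approximation of the complex structured singular value from a gap theorem for
satisfiability.
-/

namespace Pool.Agent.MP_54e0c2_lc

open Turing Computability
open Pool.Agent.H66 (Cl LitSat ClSat Sat3)
open Pool.Agent.Lib.helper60 Function

/-- **NP-hardness of the `r`-approximation problem.** There is a rational constant `c` such that
every language `L` in NP reduces to the problem in the following way: a polynomial-time
computable function `f` maps words to inputs of the problem, and every `r`-approximation `q` of the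
complex structured singular value of `f w` satisfies `c ≤ q` if and only if `w` belongs to `L`. -/
def ApproxNPHard (r : ℝ) : Prop :=
  ∃ c : ℚ, ∀ L : Set (List Bool), InNP L → ∃ f : List Bool → Inst,
    Nonempty (TM2ComputableInPolyTime (fun w : List Bool => w) Inst.encode f) ∧
    ∀ (w : List Bool) (q : ℝ), IsApprox r (f w).mu q → (w ∈ L ↔ (c : ℝ) ≤ q)

lemma approx_sep {c₀ : ℝ} (h0 : 0 < c₀) (h1 : c₀ < 1) : ∃ (r : ℚ) (c : ℚ), 0 < r ∧
    (∀ q : ℝ, IsApprox r 1 q → (c : ℝ) ≤ q) ∧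
    (∀ μ q : ℝ, μ ≤ c₀ → IsApprox r μ q → q < c) := by
  -- a rational `r` with `(1 + r)^2 c₀ < 1`
  obtain ⟨r, hr0, hr1⟩ : ∃ r : ℚ, 0 < r ∧ (1 + (r : ℝ)) ^ 2 * c₀ < 1 := by
    have hpos : 0 < min 1 ((1 / c₀ - 1) / 4) := by
      apply lt_min one_pos
      have : 1 < 1 / c₀ := by rw [lt_div_iff₀ h0, one_mul]; exact h1
      linarith
    obtain ⟨r, hr0, hr1⟩ := exists_rat_btwn hpos
    refine ⟨r, by exact_mod_cast hr0, ?_⟩
    have h2 : (r : ℝ) < 1 := lt_of_lt_of_le hr1 (min_le_left _ _)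
    have h3 : (r : ℝ) < (1 / c₀ - 1) / 4 := lt_of_lt_of_le hr1 (min_le_right _ _)
    have h4 : (1 + (r : ℝ)) ^ 2 < 1 / c₀ := by nlinarith
    calc (1 + (r : ℝ)) ^ 2 * c₀ < 1 / c₀ * c₀ := mul_lt_mul_of_pos_right h4 h0
      _ = 1 := by field_simp
  have hrR : (0 : ℝ) < r := by exact_mod_cast hr0
  refine ⟨r, 1 / (1 + r), hr0, ?_, ?_⟩
  · intro q hq
    push_cast
    rcases hq with ⟨h, _⟩ | ⟨h, _⟩
    · refine le_trans ?_ h
      rw [div_le_one (by positivity)]
      linarith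
    · exact h
  · intro μ q hμ hq
    push_cast
    have hq' : q ≤ (1 + r) * c₀ := by
      rcases hq with ⟨_, h⟩ | ⟨h2, h⟩
      · refine h.trans ?_
        exact mul_le_mul_of_nonneg_left hμ (by positivity)
      · refine (h.trans hμ).trans ?_
        nlinarith
    refine lt_of_le_of_lt hq' ?_
    rw [lt_div_iff₀ (by positivity)]
    calc (1 + (r : ℝ)) * c₀ * (1 + r) = (1 + (r : ℝ)) ^ 2 * c₀ := by ring
      _ < 1 := hr1

/-- the reduction, composed with the theorem of Cook and Levin -/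
theorem hard_of_core {eps : ℚ} (heps : 0 < eps) {F : List Cl → List Cl} (hF : PT F)
    (hne : ∀ φ, F φ ≠ []) (hyes : ∀ φ, Sat3 φ → Sat3 (F φ))
    (hno : ∀ φ, ¬ Sat3 φ → ∀ τ : ℕ → Bool, (eps : ℝ) * (F φ).length ≤ nfalse τ (F φ)) :
    ∃ r : ℝ, 0 < r ∧ ApproxNPHard r := by
  obtain ⟨c₀, h0, h1, hgap⟩ := red_gap (eps := (eps : ℝ)) (by exact_mod_cast heps)
  obtain ⟨r, c, hr, hy, hn⟩ := approx_sep h0 h1
  refine ⟨(r : ℝ), by exact_mod_cast hr, c, ?_⟩
  intro L hL
  obtain ⟨f, hf, hfL⟩ := H66.cook_levin hL.toH66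
  obtain ⟨m1⟩ := hf.tm2_raw
  have m2 : Nonempty (TM2ComputableInPolyTime (fun φ : List Cl => (toD φ).enc) Inst.encode
      (fun φ => red (F φ))) :=
    PT.toTM2_code (F := fun φ => (red (F φ)).encode) (PT_red.comp hF) (fun _ => rfl)
  have e : (H66.enc : List Cl → List Bool) = (fun φ : List Cl => (toD φ).enc) := by
    funext φ
    exact ((Same.bool.prod Same.nat).prod ((Same.bool.prod Same.nat).prod
      (Same.bool.prod Same.nat))).list φ
  rw [← e] at m2
  obtain ⟨m2⟩ := m2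
  refine ⟨(fun φ => red (F φ)) ∘ f, TM2_comp m1 m2, ?_⟩
  intro w q hq
  obtain ⟨g1, g2⟩ := hgap (F (f w)) (hne _)
  show w ∈ L ↔ _
  constructor
  · intro hw
    have hmu : (red (F (f w))).mu = 1 := g1 (hyes _ ((hfL w).1 hw))
    have hq' : IsApprox r (red (F (f w))).mu q := hq
    rw [hmu] at hq'
    exact hy q hq'
  · intro hcq
    by_contra hw
    have hmu : (red (F (f w))).mu ≤ c₀ := g2 (hno _ (fun h => hw ((hfL w).2 h)))
    have := hn _ q hmu hq
    linarith

end Pool.Agent.MP_54e0c2_lc
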