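import Pool.Agent.MP_54e0c2_lc.Round
import Pool.Agent.Lib.helper66.Tableau

/-!
From clauses with three literals to triples: every clause gives eleven triples; if they are all
rainbow then the clause is satisfied by the assignment read off from the colouring.
-/

namespace Pool.Agent.MP_54e0c2_lc

open Pool.Agent.H66 (Lit Cl LitSat ClSat Sat3)

/-- vertex of a literal -/
def lv (l : Lit) : ℕ := 3 + 2 * (2 * l.2 + (if l.1 then 1 else 0))

/-- vertex of the opposite literal -/
def lvn (l : Lit) : ℕ := 3 + 2 * (2 * l.2 + (if l.1 then 0 else 1))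

/-- private vertex `j < 10` of clause number `i` -/
def pv (i j : ℕ) : ℕ := 4 + 2 * (10 * i + j)

/-- the eleven triples of clause number `i` -/
def grp (i : ℕ) (c : Cl) : List Tri :=
  [(lv c.1, lvn c.1, 2), (lv c.2.1, lvn c.2.1, 2), (lv c.2.2, lvn c.2.2, 2),
   (pv i 0, pv i 1, pv i 2), (lv c.1, pv i 0, pv i 6), (lv c.2.1, pv i 1, pv i 7),
   (pv i 3, pv i 4, pv i 5), (pv i 2, pv i 3, pv i 8), (lv c.2.2, pv i 4, pv i 9),
   (pv i 5, 1, 2), (0, 1, 2)]

/-- all triples of a formula -/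
def tri (φ : List Cl) : List Tri :=
  (List.range φ.length).flatMap fun i => grp i (φ.getD i ((false, 0), (false, 0), (false, 0)))

/-- number of clauses that are false -/
def nfalse (τ : ℕ → Bool) (φ : List Cl) : ℕ :=
  φ.countP fun c => ! (decide (τ c.1.2 = c.1.1) || decide (τ c.2.1.2 = c.2.1.1) ||
    decide (τ c.2.2.2 = c.2.2.1))

/-! ### Soundness -/

lemma third : ∀ a b c d : Fin 3, a ≠ b → b ≠ c → c ≠ a → d ≠ b → d ≠ c → d = a := by decide

lemma third' : ∀ a b c d : Fin 3, a ≠ b → b ≠ c → c ≠ a → d ≠ a → d ≠ b → d = c := by decide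

/-- the assignment read off from a colouring -/
def rd (χ : ℕ → Fin 3) (v : ℕ) : Bool := decide (χ (lv (true, v)) = χ 0)

lemma lit_colour {χ : ℕ → Fin 3} {l : Lit} (h1 : Good χ (lv l, lvn l, 2)) (h2 : Good χ (0, 1, 2))
    (hf : rd χ l.2 ≠ l.1) : χ (lv l) = χ 1 := by
  obtain ⟨s, v⟩ := l
  obtain ⟨a1, a2, a3⟩ := h1
  obtain ⟨b1, b2, b3⟩ := h2
  simp only at a1 a2 a3 b1 b2 b3 hf ⊢
  cases s with
  | true =>
    have h0 : χ (lv (true, v)) ≠ χ 0 := by
      intro h; apply hf; simp [rd, h]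
    exact third (χ 1) (χ 0) (χ 2) _ b1.symm b3.symm b2.symm h0 a3.symm
  | false =>
    have h0 : χ (lv (true, v)) = χ 0 := by
      by_contra h
      apply hf
      simp [rd, h]
    have e : lvn (false, v) = lv (true, v) := by simp [lvn, lv]
    rw [e] at a1 a2
    rw [h0] at a1 a2
    exact third (χ 1) (χ 0) (χ 2) _ b1.symm b3.symm b2.symm a1 a3.symm

lemma group_sound {χ : ℕ → Fin 3} {i : ℕ} {c : Cl} (h : ∀ t ∈ grp i c, Good χ t) :
    (rd χ c.1.2 = c.1.1 ∨ rd χ c.2.1.2 = c.2.1.1) ∨ rd χ c.2.2.2 = c.2.2.1 := by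
  by_contra hcon
  push Not at hcon
  obtain ⟨⟨hf1, hf2⟩, hf3⟩ := hcon
  have m : ∀ t, t ∈ grp i c → Good χ t := h
  simp only [grp, List.mem_cons, List.not_mem_nil, or_false] at m
  have t1 := m (lv c.1, lvn c.1, 2) (by simp)
  have t2 := m (lv c.2.1, lvn c.2.1, 2) (by simp)
  have t3 := m (lv c.2.2, lvn c.2.2, 2) (by simp)
  have t4 := m (pv i 0, pv i 1, pv i 2) (by simp)
  have t5 := m (lv c.1, pv i 0, pv i 6) (by simp)
  have t6 := m (lv c.2.1, pv i 1, pv i 7) (by simp)
  have t7 := m (pv i 3, pv i 4, pv i 5) (by simp)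
  have t8 := m (pv i 2, pv i 3, pv i 8) (by simp)
  have t9 := m (lv c.2.2, pv i 4, pv i 9) (by simp)
  have t10 := m (pv i 5, 1, 2) (by simp)
  have t11 := m (0, 1, 2) (by simp)
  have c1 := lit_colour t1 t11 hf1
  have c2 := lit_colour t2 t11 hf2
  have c3 := lit_colour t3 t11 hf3
  unfold Good at t4 t5 t6 t7 t8 t9 t10
  simp only at t4 t5 t6 t7 t8 t9 t10
  rw [c1] at t5
  rw [c2] at t6
  rw [c3] at t9
  have q : χ 1 = χ (pv i 2) := third' _ _ _ _ t4.1 t4.2.1 t4.2.2 t5.1 t6.1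
  rw [← q] at t8
  have s : χ 1 = χ (pv i 5) := third' _ _ _ _ t7.1 t7.2.1 t7.2.2 t8.1 t9.1
  exact t10.1 s.symm

lemma nbad_nil (χ : ℕ → Fin 3) : nbad χ [] = 0 := rfl

lemma nbad_append (χ : ℕ → Fin 3) (T T' : List Tri) : nbad χ (T ++ T') = nbad χ T + nbad χ T' := by
  unfold nbad; rw [List.countP_append]

lemma nbad_pos {χ : ℕ → Fin 3} {T : List Tri} (h : ¬ ∀ t ∈ T, Good χ t) : 1 ≤ nbad χ T := by
  unfold nbad
  rw [Nat.one_le_iff_ne_zero]
  intro h0
  apply h
  intro t ht
  rw [List.countP_eq_zero] at h0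
  have := h0 t ht
  simpa using this

lemma sound_aux (χ : ℕ → Fin 3) (φ ψ : List Cl) : ∀ k : ℕ, φ = ψ.drop k →
    nfalse (rd χ) φ ≤ nbad χ ((List.range φ.length).flatMap fun i =>
      grp (k + i) (φ.getD i ((false, 0), (false, 0), (false, 0)))) := by
  induction φ with
  | nil => intro k _; simp [nfalse]
  | cons c φ ih =>
    intro k hk
    have hk' : φ = ψ.drop (k + 1) := by
      rw [← List.tail_drop, ← hk]; rfl
    have h := ih (k + 1) hk'
    rw [List.length_cons, List.range_succ_eq_map, List.flatMap_cons, nbad_append,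
      List.flatMap_map]
    have e1 : (fun i => grp (k + Nat.succ i) ((c :: φ).getD (Nat.succ i)
        ((false, 0), (false, 0), (false, 0)))) = fun i => grp (k + 1 + i)
        (φ.getD i ((false, 0), (false, 0), (false, 0))) := by
      funext i
      have : k + Nat.succ i = k + 1 + i := by omega
      rw [this]
      rfl
    have e2 : (c :: φ).getD 0 ((false, 0), (false, 0), (false, 0)) = c := rfl
    have h2 : nfalse (rd χ) (c :: φ) ≤ nbad χ (grp k c) + nfalse (rd χ) φ := by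
      unfold nfalse
      rw [List.countP_cons]
      have : (if (! (decide (rd χ c.1.2 = c.1.1) || decide (rd χ c.2.1.2 = c.2.1.1) ||
          decide (rd χ c.2.2.2 = c.2.2.1))) = true then 1 else 0) ≤ nbad χ (grp k c) := by
        split_ifs with hc
        · apply nbad_pos
          intro hg
          have := group_sound hg
          simp only [Bool.not_eq_true', Bool.or_eq_false_iff, decide_eq_false_iff_not] at hc
          rcases this with (h | h) | h
          · exact hc.1.1 h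
          · exact hc.1.2 h
          · exact hc.2 h
        · exact Nat.zero_le _
      omega
    rw [e2]
    refine h2.trans ?_
    apply Nat.add_le_add_left
    exact h.trans (le_of_eq (by rw [← e1]))

theorem tri_sound (χ : ℕ → Fin 3) (φ : List Cl) : nfalse (rd χ) φ ≤ nbad χ (tri φ) := by
  have := sound_aux χ φ φ 0 (by simp)
  simpa [tri] using this

lemma tri_length (φ : List Cl) : (tri φ).length = 11 * φ.length := by
  unfold tri
  rw [List.length_flatMap]
  simp [grp, mul_comm]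


/-! ### Completeness -/

/-- colour of a literal with truth value `b` -/
def lc (b : Bool) : Fin 3 := if b then 0 else 1

/-- colours of the private vertices -/
def pc (b1 b2 b3 : Bool) (j : ℕ) : Fin 3 :=
  let p1 : Fin 3 := if b1 then 1 else if b2 then 2 else 0
  let p2 : Fin 3 := if b1 then 2 else if b2 then 1 else 2
  let q : Fin 3 := if b1 || b2 then 0 else 1
  let r1 : Fin 3 := if b1 || b2 then 1 else 2
  let r2 : Fin 3 := if b1 || b2 then 2 else 1
  match j with
  | 0 => p1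
  | 1 => p2
  | 2 => q
  | 3 => r1
  | 4 => r2
  | 5 => 0
  | 6 => -(lc b1 + p1)
  | 7 => -(lc b2 + p2)
  | 8 => -(q + r1)
  | _ => -(lc b3 + r2)

/-- the truth value of a literal -/
def tv (τ : ℕ → Bool) (l : Lit) : Bool := decide (τ l.2 = l.1)

/-- the colouring of an assignment -/
def colr (τ : ℕ → Bool) (φ : List Cl) (u : ℕ) : Fin 3 :=
  if u = 0 then 0 else if u = 1 then 1 else if u = 2 then 2
  else if u % 2 = 1 then lc (tv τ (decide ((u - 3) / 2 % 2 = 1), (u - 3) / 2 / 2))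
  else pc (tv τ (φ.getD ((u - 4) / 2 / 10) ((false, 0), (false, 0), (false, 0))).1)
    (tv τ (φ.getD ((u - 4) / 2 / 10) ((false, 0), (false, 0), (false, 0))).2.1)
    (tv τ (φ.getD ((u - 4) / 2 / 10) ((false, 0), (false, 0), (false, 0))).2.2)
    ((u - 4) / 2 % 10)

lemma colr_lv (τ : ℕ → Bool) (φ : List Cl) (l : Lit) : colr τ φ (lv l) = lc (tv τ l) := by
  obtain ⟨s, v⟩ := l
  unfold colr lv
  have key : ∀ b : ℕ, b < 2 → (3 + 2 * (2 * v + b)) % 2 = 1 ∧
      (3 + 2 * (2 * v + b) - 3) / 2 % 2 = b ∧ (3 + 2 * (2 * v + b) - 3) / 2 / 2 = v ∧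
      ¬ 3 + 2 * (2 * v + b) = 0 ∧ ¬ 3 + 2 * (2 * v + b) = 1 ∧ ¬ 3 + 2 * (2 * v + b) = 2 := by
    intro b hb
    omega
  cases s
  · obtain ⟨h1, h2, h3, h4, h5, h6⟩ := key 0 (by norm_num)
    simp only [Bool.false_eq_true, if_false]
    rw [if_neg h4, if_neg h5, if_neg h6, if_pos h1, h2, h3]
    rfl
  · obtain ⟨h1, h2, h3, h4, h5, h6⟩ := key 1 (by norm_num)
    simp only [if_true]
    rw [if_neg h4, if_neg h5, if_neg h6, if_pos h1, h2, h3]
    rfl

lemma colr_lvn (τ : ℕ → Bool) (φ : List Cl) (l : Lit) : colr τ φ (lvn l) = lc (! tv τ l) := by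
  obtain ⟨s, v⟩ := l
  have e : lvn (s, v) = lv (!s, v) := by cases s <;> rfl
  rw [e, colr_lv]
  congr 1
  unfold tv
  cases s <;> cases h : τ v <;> simp

lemma colr_pv (τ : ℕ → Bool) (φ : List Cl) (i j : ℕ) (hj : j < 10) : colr τ φ (pv i j) =
    pc (tv τ (φ.getD i ((false, 0), (false, 0), (false, 0))).1)
    (tv τ (φ.getD i ((false, 0), (false, 0), (false, 0))).2.1)
    (tv τ (φ.getD i ((false, 0), (false, 0), (false, 0))).2.2) j := by
  unfold colr pv
  have h1 : ¬ (4 + 2 * (10 * i + j)) % 2 = 1 := by omega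
  have h2 : (4 + 2 * (10 * i + j) - 4) / 2 / 10 = i := by omega
  have h3 : (4 + 2 * (10 * i + j) - 4) / 2 % 10 = j := by omega
  have h4 : ¬ 4 + 2 * (10 * i + j) = 0 := by omega
  have h5 : ¬ 4 + 2 * (10 * i + j) = 1 := by omega
  have h6 : ¬ 4 + 2 * (10 * i + j) = 2 := by omega
  rw [if_neg h4, if_neg h5, if_neg h6, if_neg h1, h2, h3]

lemma group_complete (τ : ℕ → Bool) (φ : List Cl) (i : ℕ)
    (h : ClSat τ (φ.getD i ((false, 0), (false, 0), (false, 0)))) :
    ∀ t ∈ grp i (φ.getD i ((false, 0), (false, 0), (false, 0))), Good (colr τ φ) t := by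
  set c := φ.getD i ((false, 0), (false, 0), (false, 0)) with hc
  have hor : tv τ c.1 || tv τ c.2.1 || tv τ c.2.2 = true := by
    unfold ClSat LitSat at h
    simp only [tv, Bool.or_eq_true, decide_eq_true_eq]
    tauto
  have c0 : colr τ φ 0 = 0 := rfl
  have c1 : colr τ φ 1 = 1 := rfl
  have c2 : colr τ φ 2 = 2 := rfl
  have hp : ∀ j < 10, colr τ φ (pv i j) = pc (tv τ c.1) (tv τ c.2.1) (tv τ c.2.2) j :=
    fun j hj => colr_pv τ φ i j hj
  have p0 := hp 0 (by norm_num)
  have p1 := hp 1 (by norm_num)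
  have p2 := hp 2 (by norm_num)
  have p3 := hp 3 (by norm_num)
  have p4 := hp 4 (by norm_num)
  have p5 := hp 5 (by norm_num)
  have p6 := hp 6 (by norm_num)
  have p7 := hp 7 (by norm_num)
  have p8 := hp 8 (by norm_num)
  have p9 := hp 9 (by norm_num)
  intro t ht
  simp only [grp, List.mem_cons, List.not_mem_nil, or_false] at ht
  unfold Good
  rcases ht with rfl | rfl | rfl | rfl | rfl | rfl | rfl | rfl | rfl | rfl | rfl <;>
    simp only [colr_lv, colr_lvn, p0, p1, p2, p3, p4, p5, p6, p7, p8, p9, c0, c1, c2] <;>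
    clear p0 p1 p2 p3 p4 p5 p6 p7 p8 p9 hp c0 c1 c2 <;>
    generalize tv τ c.1 = b1 at * <;> generalize tv τ c.2.1 = b2 at * <;>
    generalize tv τ c.2.2 = b3 at * <;> clear hc h <;> revert b1 b2 b3 <;> decide

theorem tri_complete {τ : ℕ → Bool} {φ : List Cl} (h : ∀ c ∈ φ, ClSat τ c) :
    ∀ t ∈ tri φ, Good (colr τ φ) t := by
  intro t ht
  unfold tri at ht
  rw [List.mem_flatMap] at ht
  obtain ⟨i, hi, ht⟩ := ht
  rw [List.mem_range] at hi
  refine group_complete τ φ i (h _ ?_) t ht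
  rw [List.getD_eq_getElem _ _ hi]
  exact List.getElem_mem hi

end Pool.Agent.MP_54e0c2_lc
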