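import Pool.Agent.MP_54e0c2_lc.Defs

/-!
The complex structured singular value of the loop structure `[[0, A], [1 e₁ᵀ, 0]]` with one full
block and scalar blocks: its fourth power is the maximum of `‖A z‖²` over the polydisk.
-/

namespace Pool.Agent.MP_54e0c2_lc

open scoped Matrix.Norms.L2Operator
open Matrix Finset

/-! ### Contractions -/

lemma contr_of_norm_le {n : ℕ} {D : Matrix (Fin n) (Fin n) ℂ} (h : ‖D‖ ≤ 1) (u : Fin n → ℂ) :
    ∑ a, ‖(D *ᵥ u) a‖ ^ 2 ≤ ∑ a, ‖u a‖ ^ 2 := by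
  have h1 := D.l2_opNorm_mulVec ((EuclideanSpace.equiv (Fin n) ℂ).symm u)
  have h2 : ‖(EuclideanSpace.equiv (Fin n) ℂ).symm (D *ᵥ u)‖ ≤
      ‖(EuclideanSpace.equiv (Fin n) ℂ).symm u‖ := by
    refine le_trans h1 ?_
    calc ‖D‖ * _ ≤ 1 * _ := mul_le_mul_of_nonneg_right h (norm_nonneg _)
      _ = _ := one_mul _
  rw [EuclideanSpace.norm_eq, EuclideanSpace.norm_eq] at h2
  exact (Real.sqrt_le_sqrt_iff (by positivity)).1 h2

lemma norm_le_of_contr {n : ℕ} {D : Matrix (Fin n) (Fin n) ℂ}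
    (h : ∀ u : Fin n → ℂ, ∑ a, ‖(D *ᵥ u) a‖ ^ 2 ≤ ∑ a, ‖u a‖ ^ 2) : ‖D‖ ≤ 1 := by
  rw [Matrix.l2_opNorm_def]
  refine ContinuousLinearMap.opNorm_le_bound _ zero_le_one ?_
  intro x
  rw [one_mul, EuclideanSpace.norm_eq, EuclideanSpace.norm_eq]
  exact Real.sqrt_le_sqrt (h x)

/-! ### The loop structure -/

/-- one full block of size `R` and `n` scalar blocks -/
def bs (R n : ℕ) : Fin (n + 1) → ℕ := Fin.cons R fun _ => 1

/-- the matrix of the loop; `z` and `o` are the constants zero and one -/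
def loopM {α : Type} (z o : α) (R n : ℕ) (A : ℕ → ℕ → α) :
    Matrix (Σ i, Fin (bs R n i)) (Σ i, Fin (bs R n i)) α := fun p q =>
  if p.1.val = 0 then (if q.1.val = 0 then z else A p.2.val (q.1.val - 1))
  else (if q.1.val = 0 ∧ q.2.val = 0 then o else z)

/-- the full block component and the scalar components of a vector -/
def yv {R n : ℕ} (v : (Σ i, Fin (bs R n i)) → ℂ) (a : Fin R) : ℂ := v ⟨0, a⟩
def xv {R n : ℕ} (v : (Σ i, Fin (bs R n i)) → ℂ) (i : Fin n) : ℂ := v ⟨i.succ, (0 : Fin 1)⟩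

lemma vec_ext {R n : ℕ} {v w : (Σ i, Fin (bs R n i)) → ℂ} (h1 : ∀ a, yv v a = yv w a)
    (h2 : ∀ i, xv v i = xv w i) : v = w := by
  funext ⟨i, a⟩
  induction i using Fin.cases with
  | zero => exact h1 a
  | succ i =>
    have : a = (0 : Fin 1) := Subsingleton.elim (α := Fin 1) _ _
    rw [this]
    exact h2 i

lemma sum_bs {R n : ℕ} (f : (Σ i, Fin (bs R n i)) → ℂ) :
    ∑ p, f p = ∑ a : Fin R, f ⟨0, a⟩ + ∑ i : Fin n, f ⟨i.succ, (0 : Fin 1)⟩ := by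
  rw [Fintype.sum_sigma, Fin.sum_univ_succ]
  congr 1
  refine Finset.sum_congr rfl fun i _ => ?_
  exact Fintype.sum_subsingleton (ι := Fin 1) (fun y => f ⟨i.succ, y⟩) (0 : Fin 1)

lemma loop_y {R n : ℕ} (A : ℕ → ℕ → ℂ) (v : (Σ i, Fin (bs R n i)) → ℂ) (a : Fin R) :
    yv (loopM 0 1 R n A *ᵥ v) a = ∑ i : Fin n, A a i * xv v i := by
  unfold yv
  rw [Matrix.mulVec, dotProduct, sum_bs]
  have h1 : ∑ b : Fin R, loopM 0 1 R n A ⟨0, a⟩ ⟨0, b⟩ * v ⟨0, b⟩ = 0 := by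
    apply Finset.sum_eq_zero
    intro b _
    simp [loopM]
  rw [h1, zero_add]
  refine Finset.sum_congr rfl fun i _ => ?_
  simp [loopM, xv]

lemma loop_x {R n : ℕ} (A : ℕ → ℕ → ℂ) (v : (Σ i, Fin (bs (R + 1) n i)) → ℂ) (i : Fin n) :
    xv (loopM 0 1 (R + 1) n A *ᵥ v) i = yv v 0 := by
  unfold xv yv
  rw [Matrix.mulVec, dotProduct, sum_bs]
  have h2 : ∑ j : Fin n, loopM 0 1 (R + 1) n A ⟨i.succ, (0 : Fin 1)⟩ ⟨j.succ, (0 : Fin 1)⟩ *
      v ⟨j.succ, (0 : Fin 1)⟩ = 0 := by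
    apply Finset.sum_eq_zero
    intro j _
    simp [loopM]
  rw [h2, add_zero]
  rw [Finset.sum_eq_single (0 : Fin (R + 1))]
  · simp [loopM]
  · intro b _ hb
    have : b.val ≠ 0 := fun h => hb (Fin.ext h)
    simp [loopM, this]
  · intro h; exact absurd (Finset.mem_univ _) h

lemma block_y {R n : ℕ} (D : ∀ i, Matrix (Fin (bs R n i)) (Fin (bs R n i)) ℂ)
    (u : (Σ i, Fin (bs R n i)) → ℂ) (a : Fin R) :
    yv (Matrix.blockDiagonal' D *ᵥ u) a = ((D 0 : Matrix (Fin R) (Fin R) ℂ) *ᵥ yv u) a := by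
  unfold yv
  rw [Matrix.mulVec, dotProduct, sum_bs]
  have h2 : ∑ j : Fin n, Matrix.blockDiagonal' D ⟨0, a⟩ ⟨j.succ, (0 : Fin 1)⟩ *
      u ⟨j.succ, (0 : Fin 1)⟩ = 0 := by
    apply Finset.sum_eq_zero
    intro j _
    rw [Matrix.blockDiagonal'_apply_ne D _ _ (Fin.succ_ne_zero j).symm, zero_mul]
  rw [h2, add_zero]
  refine Finset.sum_congr rfl fun b _ => ?_
  rw [Matrix.blockDiagonal'_apply_eq]
  rfl

lemma block_x {R n : ℕ} (D : ∀ i, Matrix (Fin (bs R n i)) (Fin (bs R n i)) ℂ)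
    (u : (Σ i, Fin (bs R n i)) → ℂ) (i : Fin n) :
    xv (Matrix.blockDiagonal' D *ᵥ u) i = D i.succ (0 : Fin 1) (0 : Fin 1) * xv u i := by
  unfold xv
  rw [Matrix.mulVec, dotProduct, sum_bs]
  have h1 : ∑ a : Fin R, Matrix.blockDiagonal' D ⟨i.succ, (0 : Fin 1)⟩ ⟨0, a⟩ * u ⟨0, a⟩ = 0 := by
    apply Finset.sum_eq_zero
    intro j _
    rw [Matrix.blockDiagonal'_apply_ne D _ _ (Fin.succ_ne_zero i), zero_mul]
  rw [h1, zero_add, Finset.sum_eq_single i]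
  · rw [Matrix.blockDiagonal'_apply_eq]
  · intro j _ hj
    rw [Matrix.blockDiagonal'_apply_ne D _ _ (fun h => hj (Fin.succ_injective _ h).symm), zero_mul]
  · intro h; exact absurd (Finset.mem_univ _) h


/-- the objective function -/
noncomputable def obj (R n : ℕ) (A : ℕ → ℕ → ℂ) (z : Fin n → ℂ) : ℝ :=
  ∑ a : Fin R, ‖∑ i : Fin n, A a i * z i‖ ^ 2

lemma sq_sum_le {n : ℕ} (w v : Fin n → ℂ) :
    ‖∑ b, w b * v b‖ ^ 2 ≤ (∑ b, ‖w b‖ ^ 2) * ∑ b, ‖v b‖ ^ 2 := by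
  have h1 : ‖∑ b, w b * v b‖ ≤ ∑ b, ‖w b‖ * ‖v b‖ := by
    refine (norm_sum_le _ _).trans ?_
    simp only [norm_mul]; exact le_refl _
  calc ‖∑ b, w b * v b‖ ^ 2 ≤ (∑ b, ‖w b‖ * ‖v b‖) ^ 2 :=
        pow_le_pow_left₀ (norm_nonneg _) h1 2
    _ ≤ _ := Finset.sum_mul_sq_le_sq_mul_sq _ _ _

/-- a point of the polydisk with large objective gives a singular matrix -/
lemma singular_of_obj {R n : ℕ} {A : ℕ → ℕ → ℂ} {z : Fin n → ℂ} (hz : ∀ i, ‖z i‖ ≤ 1) {ρ : ℝ}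
    (hρ : 0 < ρ) (h : ρ ^ 4 ≤ obj (R + 1) n A z) :
    ∃ Δ ∈ BK (bs (R + 1) n), (1 - ((ρ : ℂ)⁻¹) • (Δ * loopM 0 1 (R + 1) n A)).det = 0 := by
  set w : Fin (R + 1) → ℂ := fun a => ∑ i : Fin n, A a i * z i with hw
  set S : ℝ := obj (R + 1) n A z with hS
  have hSw : S = ∑ a, ‖w a‖ ^ 2 := rfl
  have hρ4 : 0 < ρ ^ 4 := by positivity
  have hS0 : 0 < S := lt_of_lt_of_le hρ4 h
  have hρC : (ρ : ℂ) ≠ 0 := by exact_mod_cast hρ.ne'
  have hSC : (S : ℂ) ≠ 0 := by exact_mod_cast hS0.ne'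
  let Φ : Matrix (Fin (R + 1)) (Fin (R + 1)) ℂ := fun a b =>
    if a = 0 then ((ρ ^ 2 / S : ℝ) : ℂ) * (starRingEnd ℂ) (w b) else 0
  let Z : Fin n → Matrix (Fin 1) (Fin 1) ℂ := fun i => Matrix.of fun _ _ => z i
  let D : ∀ i, Matrix (Fin (bs (R + 1) n i)) (Fin (bs (R + 1) n i)) ℂ :=
    fun i => Fin.cases (motive := fun i => Matrix (Fin (bs (R + 1) n i)) (Fin (bs (R + 1) n i)) ℂ)
      Φ Z i
  have hDs : ∀ (i : Fin n), D i.succ (0 : Fin 1) (0 : Fin 1) = z i := fun i => rfl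
  refine ⟨Matrix.blockDiagonal' D, ⟨D, ?_, rfl⟩, ?_⟩
  · intro i
    induction i using Fin.cases with
    | zero =>
      show ‖(Φ : Matrix (Fin (R + 1)) (Fin (R + 1)) ℂ)‖ ≤ 1
      apply norm_le_of_contr
      intro u
      have h0 : ∀ a, (Φ *ᵥ u) a = if a = 0 then
          ((ρ ^ 2 / S : ℝ) : ℂ) * ∑ b, (starRingEnd ℂ) (w b) * u b else 0 := by
        intro a
        by_cases ha : a = 0
        · simp only [Matrix.mulVec, dotProduct, Φ, if_pos ha]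
          rw [Finset.mul_sum]
          refine Finset.sum_congr rfl fun b _ => by ring
        · simp [Matrix.mulVec, dotProduct, Φ, ha]
      have h1 : ∑ a, ‖(Φ *ᵥ u) a‖ ^ 2 =
          ‖((ρ ^ 2 / S : ℝ) : ℂ) * ∑ b, (starRingEnd ℂ) (w b) * u b‖ ^ 2 := by
        rw [Finset.sum_eq_single 0]
        · rw [h0, if_pos rfl]
        · intro b _ hb; rw [h0, if_neg hb]; simp
        · intro h; exact absurd (Finset.mem_univ _) h
      rw [h1, norm_mul, mul_pow]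
      have h2 := sq_sum_le (fun b => (starRingEnd ℂ) (w b)) u
      simp only [RCLike.norm_conj] at h2
      rw [← hSw] at h2
      have h3 : ‖((ρ ^ 2 / S : ℝ) : ℂ)‖ ^ 2 = ρ ^ 4 / S ^ 2 := by
        rw [Complex.norm_real, Real.norm_eq_abs, sq_abs]
        field_simp
      rw [h3]
      have hu : 0 ≤ ∑ b, ‖u b‖ ^ 2 := Finset.sum_nonneg fun _ _ => by positivity
      calc ρ ^ 4 / S ^ 2 * ‖∑ b, (starRingEnd ℂ) (w b) * u b‖ ^ 2
          ≤ ρ ^ 4 / S ^ 2 * (S * ∑ b, ‖u b‖ ^ 2) := by gcongr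
        _ = (ρ ^ 4 / S) * ∑ b, ‖u b‖ ^ 2 := by field_simp
        _ ≤ 1 * ∑ b, ‖u b‖ ^ 2 := by
          apply mul_le_mul_of_nonneg_right _ hu
          rw [div_le_one hS0]; exact h
        _ = _ := one_mul _
    | succ i =>
      show ‖(Z i : Matrix (Fin 1) (Fin 1) ℂ)‖ ≤ 1
      apply norm_le_of_contr
      intro u
      simp only [Matrix.mulVec, dotProduct, Fin.sum_univ_one, norm_mul, mul_pow, Z, Matrix.of_apply]
      have := hz i
      calc ‖z i‖ ^ 2 * ‖u 0‖ ^ 2 ≤ 1 ^ 2 * ‖u 0‖ ^ 2 := by gcongr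
        _ = _ := by ring
  · rw [← Matrix.exists_mulVec_eq_zero_iff]
    let v : (Σ i, Fin (bs (R + 1) n i)) → ℂ := fun p =>
      if p.1.val = 0 then (if p.2.val = 0 then 1 else 0)
      else if hp : p.1.val - 1 < n then z ⟨p.1.val - 1, hp⟩ / ρ else 0
    have hy : ∀ a, yv v a = if a = 0 then 1 else 0 := by
      intro a
      by_cases ha : a = 0
      · subst ha; simp [yv, v]
      · have : a.val ≠ 0 := fun h => ha (Fin.ext h)
        simp [yv, v, this, ha]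
    have hx : ∀ i, xv v i = z i / ρ := by
      intro i; simp [xv, v]
    refine ⟨v, ?_, ?_⟩
    · intro h0
      have := hy 0
      rw [h0] at this
      simp [yv] at this
    · rw [Matrix.sub_mulVec, Matrix.one_mulVec, Matrix.smul_mulVec, ← Matrix.mulVec_mulVec,
        sub_eq_zero]
      apply vec_ext
      · intro a
        have e1 : yv ((ρ : ℂ)⁻¹ • (Matrix.blockDiagonal' D *ᵥ (loopM 0 1 (R + 1) n A *ᵥ v))) a =
            (ρ : ℂ)⁻¹ * yv (Matrix.blockDiagonal' D *ᵥ (loopM 0 1 (R + 1) n A *ᵥ v)) a := rfl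
        have e5 : yv (Matrix.blockDiagonal' D *ᵥ (loopM 0 1 (R + 1) n A *ᵥ v)) a =
            (Φ *ᵥ yv (loopM 0 1 (R + 1) n A *ᵥ v)) a := block_y D _ a
        rw [e1, e5, hy]
        have e2 : yv (loopM 0 1 (R + 1) n A *ᵥ v) = fun a => w a / ρ := by
          funext a
          rw [loop_y, hw]
          simp only [hx]
          rw [Finset.sum_div]
          refine Finset.sum_congr rfl fun i _ => by ring
        rw [e2]
        by_cases ha : a = 0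
        · rw [if_pos ha]
          simp only [Matrix.mulVec, dotProduct, Φ, if_pos ha]
          have e3 : ∑ b, ((ρ ^ 2 / S : ℝ) : ℂ) * (starRingEnd ℂ) (w b) * (w b / ρ) =
              ((ρ ^ 2 / S : ℝ) : ℂ) / ρ * ∑ b, (starRingEnd ℂ) (w b) * w b := by
            rw [Finset.mul_sum]
            refine Finset.sum_congr rfl fun b _ => by ring
          have e4 : ∑ b, (starRingEnd ℂ) (w b) * w b = (S : ℂ) := by
            rw [hSw]
            push_cast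
            refine Finset.sum_congr rfl fun b _ => ?_
            rw [mul_comm, Complex.mul_conj, Complex.normSq_eq_norm_sq]
            push_cast; rfl
          rw [e3, e4]
          push_cast
          field_simp
        · rw [if_neg ha]
          simp [Matrix.mulVec, dotProduct, Φ, ha]
      · intro i
        have e1 : xv ((ρ : ℂ)⁻¹ • (Matrix.blockDiagonal' D *ᵥ (loopM 0 1 (R + 1) n A *ᵥ v))) i =
            (ρ : ℂ)⁻¹ * xv (Matrix.blockDiagonal' D *ᵥ (loopM 0 1 (R + 1) n A *ᵥ v)) i := rfl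
        rw [e1, block_x, hDs, hx, loop_x, hy, if_pos rfl]
        ring

/-- conversely, a singular matrix gives a point of the polydisk with large objective -/
lemma obj_of_singular {R n : ℕ} {A : ℕ → ℕ → ℂ} {ρ : ℝ} (hρ : 0 < ρ)
    {Δ : Matrix (Σ i, Fin (bs (R + 1) n i)) (Σ i, Fin (bs (R + 1) n i)) ℂ}
    (hΔ : Δ ∈ BK (bs (R + 1) n))
    (h : (1 - ((ρ : ℂ)⁻¹) • (Δ * loopM 0 1 (R + 1) n A)).det = 0) :
    ∃ z : Fin n → ℂ, (∀ i, ‖z i‖ ≤ 1) ∧ ρ ^ 4 ≤ obj (R + 1) n A z := by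
  obtain ⟨D, hD, rfl⟩ := hΔ
  rw [← Matrix.exists_mulVec_eq_zero_iff] at h
  obtain ⟨v, hv, h⟩ := h
  rw [Matrix.sub_mulVec, Matrix.one_mulVec, Matrix.smul_mulVec, ← Matrix.mulVec_mulVec,
    sub_eq_zero] at h
  have hρC : (ρ : ℂ) ≠ 0 := by exact_mod_cast hρ.ne'
  let Φ : Matrix (Fin (R + 1)) (Fin (R + 1)) ℂ := D 0
  let z : Fin n → ℂ := fun i => D i.succ (0 : Fin 1) (0 : Fin 1)
  have hy : ∀ a, yv v a = (ρ : ℂ)⁻¹ * (Φ *ᵥ yv (loopM 0 1 (R + 1) n A *ᵥ v)) a := by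
    intro a
    have h1 : yv v a = (ρ : ℂ)⁻¹ *
        yv (Matrix.blockDiagonal' D *ᵥ (loopM 0 1 (R + 1) n A *ᵥ v)) a :=
      congrArg (fun u => yv u a) h
    have e5 : yv (Matrix.blockDiagonal' D *ᵥ (loopM 0 1 (R + 1) n A *ᵥ v)) a =
        (Φ *ᵥ yv (loopM 0 1 (R + 1) n A *ᵥ v)) a := block_y D _ a
    rw [h1, e5]
  have hx : ∀ i, xv v i = (ρ : ℂ)⁻¹ * (z i * yv v 0) := by
    intro i
    have h1 : xv v i = (ρ : ℂ)⁻¹ *
        xv (Matrix.blockDiagonal' D *ᵥ (loopM 0 1 (R + 1) n A *ᵥ v)) i :=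
      congrArg (fun u => xv u i) h
    rw [h1, block_x, loop_x]
  have hzn : ∀ i, ‖z i‖ ≤ 1 := by
    intro i
    have h1 := contr_of_norm_le (n := 1) (hD i.succ) (fun _ => 1)
    simp only [Matrix.mulVec, dotProduct, Fin.sum_univ_one, mul_one, norm_one, one_pow] at h1
    have h2 : ‖z i‖ ^ 2 ≤ 1 := h1
    nlinarith [norm_nonneg (z i)]
  have hAx : ∀ a, yv (loopM 0 1 (R + 1) n A *ᵥ v) a =
      (ρ : ℂ)⁻¹ * yv v 0 * ∑ i : Fin n, A a i * z i := by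
    intro a
    rw [loop_y, Finset.mul_sum]
    refine Finset.sum_congr rfl fun i _ => ?_
    rw [hx]; ring
  have hy0 : yv v 0 ≠ 0 := by
    intro h0
    apply hv
    apply vec_ext
    · intro a
      rw [hy]
      have : yv (loopM 0 1 (R + 1) n A *ᵥ v) = fun _ => 0 := by
        funext a; rw [hAx, h0]; simp
      rw [this]
      simp [Matrix.mulVec, dotProduct, yv]
    · intro i
      rw [hx, h0]
      simp [xv]
  refine ⟨z, hzn, ?_⟩
  have h1 := contr_of_norm_le (n := R + 1) (hD 0) (yv (loopM 0 1 (R + 1) n A *ᵥ v))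
  have h2 : ∑ a, ‖yv v a‖ ^ 2 = (ρ⁻¹) ^ 2 *
      ∑ a, ‖(Φ *ᵥ yv (loopM 0 1 (R + 1) n A *ᵥ v)) a‖ ^ 2 := by
    rw [Finset.mul_sum]
    refine Finset.sum_congr rfl fun a _ => ?_
    rw [hy a, norm_mul, mul_pow, norm_inv, Complex.norm_real, Real.norm_eq_abs, abs_of_pos hρ]
  have h3 : ∑ a, ‖yv (loopM 0 1 (R + 1) n A *ᵥ v) a‖ ^ 2 =
      (ρ⁻¹) ^ 2 * ‖yv v 0‖ ^ 2 * obj (R + 1) n A z := by
    unfold obj
    rw [Finset.mul_sum]
    refine Finset.sum_congr rfl fun a _ => ?_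
    rw [hAx a, norm_mul, norm_mul, mul_pow, mul_pow, norm_inv, Complex.norm_real,
      Real.norm_eq_abs, abs_of_pos hρ]
  have h4 : ‖yv v 0‖ ^ 2 ≤ ∑ a, ‖yv v a‖ ^ 2 :=
    Finset.single_le_sum (f := fun a => ‖yv v a‖ ^ 2) (fun _ _ => by positivity)
      (Finset.mem_univ 0)
  have hpos : 0 < ‖yv v 0‖ ^ 2 := by positivity
  have h5 : ‖yv v 0‖ ^ 2 ≤ (ρ⁻¹) ^ 2 * ((ρ⁻¹) ^ 2 * ‖yv v 0‖ ^ 2 * obj (R + 1) n A z) := by
    rw [← h3]
    refine h4.trans ?_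
    rw [h2]
    exact mul_le_mul_of_nonneg_left h1 (by positivity)
  have h6 : ρ ^ 4 * ‖yv v 0‖ ^ 2 ≤ obj (R + 1) n A z * ‖yv v 0‖ ^ 2 := by
    have := mul_le_mul_of_nonneg_left h5 (show 0 ≤ ρ ^ 4 by positivity)
    calc ρ ^ 4 * ‖yv v 0‖ ^ 2 ≤ _ := this
      _ = _ := by field_simp
  exact le_of_mul_le_mul_right h6 hpos

/-- lower bound for `μ` -/
theorem le_mu {R n : ℕ} {A : ℕ → ℕ → ℂ} {z : Fin n → ℂ} (hz : ∀ i, ‖z i‖ ≤ 1) {c : ℝ}
    (h : c ^ 4 ≤ obj (R + 1) n A z) : c ≤ mu (bs (R + 1) n) (loopM 0 1 (R + 1) n A) := by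
  unfold mu
  have hne : {ρ : ℝ | 0 < ρ ∧ ∀ Δ ∈ BK (bs (R + 1) n),
      (1 - ((ρ : ℂ)⁻¹) • (Δ * loopM 0 1 (R + 1) n A)).det ≠ 0}.Nonempty := by
    -- a large `ρ`
    obtain ⟨B, hB⟩ : ∃ B : ℝ, ∀ z : Fin n → ℂ, (∀ i, ‖z i‖ ≤ 1) → obj (R + 1) n A z ≤ B := by
      refine ⟨∑ a : Fin (R + 1), (∑ i : Fin n, ‖A a i‖) ^ 2, ?_⟩
      intro z hz
      unfold obj
      refine Finset.sum_le_sum fun a _ => ?_
      refine pow_le_pow_left₀ (norm_nonneg _) ?_ 2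
      refine (norm_sum_le _ _).trans (Finset.sum_le_sum fun i _ => ?_)
      rw [norm_mul]
      calc ‖A a i‖ * ‖z i‖ ≤ ‖A a i‖ * 1 := by gcongr; exact hz i
        _ = _ := mul_one _
    refine ⟨|B| + 2, by positivity, ?_⟩
    intro Δ hΔ hdet
    obtain ⟨z, hz, hzo⟩ := obj_of_singular (by positivity) hΔ hdet
    have h1 := hB z hz
    have h2 : B < (|B| + 2) ^ 4 := by
      have : |B| ≥ 0 := abs_nonneg B
      have h3 : |B| + 2 ≤ (|B| + 2) ^ 4 := le_self_pow₀ (by linarith) (by norm_num)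
      linarith [le_abs_self B]
    linarith
  apply le_csInf hne
  rintro ρ ⟨hρ, hdet⟩
  by_contra hcon
  push Not at hcon
  have h4 : ρ ^ 4 ≤ obj (R + 1) n A z := (pow_le_pow_left₀ hρ.le hcon.le 4).trans h
  obtain ⟨Δ, hΔ, h0⟩ := singular_of_obj hz hρ h4
  exact hdet Δ hΔ h0

/-- upper bound for `μ` -/
theorem mu_le {R n : ℕ} {A : ℕ → ℕ → ℂ} {c : ℝ} (hc : 0 ≤ c)
    (h : ∀ z : Fin n → ℂ, (∀ i, ‖z i‖ ≤ 1) → obj (R + 1) n A z ≤ c ^ 4) :
    mu (bs (R + 1) n) (loopM 0 1 (R + 1) n A) ≤ c := by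
  apply le_of_forall_gt_imp_ge_of_dense
  intro ρ hρ
  have hρ0 : 0 < ρ := lt_of_le_of_lt hc hρ
  apply csInf_le
  · exact ⟨0, fun x hx => hx.1.le⟩
  · refine ⟨hρ0, ?_⟩
    intro Δ hΔ hdet
    obtain ⟨z, hz, hzo⟩ := obj_of_singular hρ0 hΔ hdet
    have h1 := h z hz
    have h2 : c ^ 4 < ρ ^ 4 := pow_lt_pow_left₀ hρ hc (by norm_num)
    linarith

end Pool.Agent.MP_54e0c2_lc
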