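import Pool.Agent.MP_54e0c2_lc.Mu
import Pool.Agent.MP_54e0c2_lc.Gadget

/-!
The input of the approximation problem that belongs to a list of triples, and its value.
-/

namespace Pool.Agent.MP_54e0c2_lc

open Finset
open Pool.Agent.H66 (Lit Cl LitSat ClSat Sat3)

/-- the three pairs of each triple -/
def edges (T : List Tri) : List (ℕ × ℕ) :=
  T.flatMap fun t => [(t.1, t.2.1), (t.2.1, t.2.2), (t.2.2, t.1)]

/-- the rows: as many copies of the pairs as there are triples -/
def rows (T : List Tri) : List (ℕ × ℕ) := (List.range T.length).flatMap fun _ => edges T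

/-- an entry of the row of the pair `e` -/
def ent (s : ℚ) (e : ℕ × ℕ) (i : ℕ) : ℚ × ℚ :=
  if i = e.1 then (if i = e.2 then (0, 0) else (s, 0)) else if i = e.2 then (-s, 0) else (0, 0)

/-- a bound for the vertices -/
def nv (T : List Tri) : ℕ := (T.map fun t => t.1 + t.2.1 + t.2.2).sum + 1

/-- the rational entries -/
def AT (T : List Tri) (a i : ℕ) : ℚ × ℚ :=
  ent (1 / ((3 * T.length : ℕ) : ℚ)) ((rows T).getD a (0, 0)) i

/-- the number of rows -/
def RT (T : List Tri) : ℕ := T.length * (3 * T.length)

/-- the input of the approximation problem for a list of triples -/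
def instOf (T : List Tri) : Inst where
  m := nv T + 1
  mpos := Nat.succ_pos _
  k := bs (RT T + 1) (nv T)
  kpos := by
    intro i
    induction i using Fin.cases with
    | zero => exact Nat.succ_pos _
    | succ i => exact Nat.one_pos
  M := loopM (0, 0) (1, 0) (RT T + 1) (nv T) (AT T)

lemma loopM_map (R n : ℕ) (A : ℕ → ℕ → ℚ × ℚ) :
    (loopM (0, 0) (1, 0) R n A).map toC = loopM 0 1 R n (fun a i => toC (A a i)) := by
  ext p q
  simp only [Matrix.map_apply, loopM]
  split_ifs <;> simp [toC]

lemma edges_length (T : List Tri) : (edges T).length = 3 * T.length := by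
  unfold edges
  rw [List.length_flatMap]
  simp [mul_comm]

lemma rows_length (T : List Tri) : (rows T).length = RT T := by
  unfold rows RT
  rw [List.length_flatMap]
  simp [edges_length]

lemma sum_getD {α : Type} (L : List α) (d : α) (g : α → ℝ) :
    ∑ a : Fin (L.length + 1), g (L.getD a.val d) = (L.map g).sum + g d := by
  induction L with
  | nil => simp
  | cons b L ih =>
    show ∑ a : Fin (L.length + 1 + 1), g ((b :: L).getD a.val d) = _
    rw [Fin.sum_univ_succ, List.map_cons, List.sum_cons]
    have h1 : ∑ a : Fin (L.length + 1), g ((b :: L).getD a.succ.val d) =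
        ∑ a : Fin (L.length + 1), g (L.getD a.val d) := rfl
    rw [h1, ih, ← add_assoc]
    rfl

/-- extension of a vector by zero -/
noncomputable def ex {n : ℕ} (z : Fin n → ℂ) (v : ℕ) : ℂ := if h : v < n then z ⟨v, h⟩ else 0

lemma ex_norm {n : ℕ} {z : Fin n → ℂ} (hz : ∀ i, ‖z i‖ ≤ 1) (v : ℕ) : ‖ex z v‖ ≤ 1 := by
  unfold ex
  split_ifs with h
  · exact hz _
  · simp

lemma toC_ent (s : ℚ) (e : ℕ × ℕ) (i : ℕ) : toC (ent s e i) =
    (s : ℂ) * ((if i = e.1 then 1 else 0) - (if i = e.2 then 1 else 0)) := by
  unfold ent toC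
  split_ifs <;> simp

lemma row_sum {n : ℕ} (z : Fin n → ℂ) (s : ℚ) {e : ℕ × ℕ} (h1 : e.1 < n) (h2 : e.2 < n) :
    ∑ i : Fin n, toC (ent s e i.val) * z i = (s : ℂ) * (ex z e.1 - ex z e.2) := by
  have key : ∀ u : ℕ, u < n → ∑ i : Fin n, (if i.val = u then (1 : ℂ) else 0) * z i = ex z u := by
    intro u hu
    rw [Finset.sum_eq_single ⟨u, hu⟩]
    · simp [ex, hu]
    · intro b _ hb
      rw [if_neg, zero_mul]
      intro h; exact hb (Fin.ext h)
    · intro h; exact absurd (Finset.mem_univ _) h
  rw [← key e.1 h1, ← key e.2 h2, ← Finset.sum_sub_distrib, Finset.mul_sum]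
  refine Finset.sum_congr rfl fun i _ => ?_
  rw [toC_ent]
  ring

lemma mem_lt_nv {T : List Tri} {t : Tri} (ht : t ∈ T) : t.1 + t.2.1 + t.2.2 < nv T := by
  unfold nv
  have := List.single_le_sum (l := T.map fun t => t.1 + t.2.1 + t.2.2) (by simp)
    (t.1 + t.2.1 + t.2.2) (List.mem_map.2 ⟨t, ht, rfl⟩)
  omega

lemma edge_lt {T : List Tri} {e : ℕ × ℕ} (he : e ∈ edges T) : e.1 < nv T ∧ e.2 < nv T := by
  unfold edges at he
  rw [List.mem_flatMap] at he
  obtain ⟨t, ht, he⟩ := he
  have := mem_lt_nv ht
  simp only [List.mem_cons, List.not_mem_nil, or_false] at he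
  rcases he with rfl | rfl | rfl <;> simp only <;> omega

lemma rows_lt {T : List Tri} {e : ℕ × ℕ} (he : e ∈ rows T) : e.1 < nv T ∧ e.2 < nv T := by
  unfold rows at he
  rw [List.mem_flatMap] at he
  obtain ⟨_, _, he⟩ := he
  exact edge_lt he

lemma sum_edges (x : ℕ → ℂ) (T : List Tri) :
    ((edges T).map fun e => ‖x e.1 - x e.2‖ ^ 2).sum = (T.map (tval x)).sum := by
  induction T with
  | nil => rfl
  | cons t T ih =>
    have : edges (t :: T) = [(t.1, t.2.1), (t.2.1, t.2.2), (t.2.2, t.1)] ++ edges T := rfl
    rw [this, List.map_append, List.sum_append, ih, List.map_cons, List.sum_cons]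
    simp only [List.map_cons, List.map_nil, List.sum_cons, List.sum_nil, tval]
    ring

lemma sum_rows (g : ℕ × ℕ → ℝ) (T : List Tri) :
    ((rows T).map g).sum = T.length * ((edges T).map g).sum := by
  unfold rows
  have : ∀ (n : ℕ) (E : List (ℕ × ℕ)), (((List.range n).flatMap fun _ => E).map g).sum =
      n * (E.map g).sum := by
    intro n E
    induction n with
    | zero => simp
    | succ n ih =>
      rw [List.range_succ, List.flatMap_append, List.map_append, List.sum_append, ih]
      simp only [List.flatMap_cons, List.flatMap_nil, List.append_nil]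
      push_cast
      ring
  exact this _ _

lemma obj_eq {T : List Tri} (hT : T ≠ []) (z : Fin (nv T) → ℂ) :
    obj (RT T + 1) (nv T) (fun a i => toC (AT T a i)) z =
      (T.map (tval (ex z))).sum / (9 * T.length) := by
  have hm : (0 : ℝ) < T.length := by exact_mod_cast List.length_pos_iff.2 hT
  set s : ℚ := 1 / ((3 * T.length : ℕ) : ℚ) with hs
  let g : ℕ × ℕ → ℝ := fun e => ‖∑ i : Fin (nv T), toC (ent s e i.val) * z i‖ ^ 2
  have h1 : obj (RT T + 1) (nv T) (fun a i => toC (AT T a i)) z =
      ∑ a : Fin (RT T + 1), g ((rows T).getD a.val (0, 0)) := rfl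
  have h2 : ∀ R, R = (rows T).length → ∑ a : Fin (R + 1), g ((rows T).getD a.val (0, 0)) =
      ((rows T).map g).sum + g (0, 0) := by
    rintro R rfl
    exact sum_getD (rows T) (0, 0) g
  have hn : 0 < nv T := Nat.succ_pos _
  have h0 : g (0, 0) = 0 := by
    simp only [g]
    rw [row_sum z s (e := (0, 0)) hn hn]
    simp
  rw [h1, h2 _ (rows_length T).symm, h0, add_zero, sum_rows]
  have h3 : ((edges T).map g).sum = (1 / (3 * (T.length : ℝ))) ^ 2 *
      ((edges T).map fun e => ‖ex z e.1 - ex z e.2‖ ^ 2).sum := by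
    rw [← List.sum_map_mul_left]
    congr 1
    apply List.map_congr_left
    intro e he
    simp only [g]
    rw [row_sum z s (edge_lt he).1 (edge_lt he).2, norm_mul, mul_pow]
    congr 2
    rw [hs]
    push_cast
    rw [norm_div, norm_one, norm_mul]
    simp
  rw [h3, sum_edges]
  field_simp
  ring

/-- if some colouring makes all triples rainbow, then `μ = 1` -/
theorem mu_yes {T : List Tri} (hT : T ≠ []) {χ : ℕ → Fin 3} (h : ∀ t ∈ T, Good χ t) :
    (instOf T).mu = 1 := by
  have hm : (0 : ℝ) < T.length := by exact_mod_cast List.length_pos_iff.2 hT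
  have hmu : (instOf T).mu = mu (bs (RT T + 1) (nv T))
      (loopM 0 1 (RT T + 1) (nv T) (fun a i => toC (AT T a i))) := by
    unfold Inst.mu
    show mu (bs (RT T + 1) (nv T))
      ((loopM (0, 0) (1, 0) (RT T + 1) (nv T) (AT T)).map toC) = _
    rw [loopM_map]
  rw [hmu]
  apply le_antisymm
  · apply mu_le zero_le_one
    intro z hz
    rw [obj_eq hT, one_pow, div_le_one (by positivity)]
    have : ∀ T : List Tri, (T.map (tval (ex z))).sum ≤ 9 * T.length := by
      intro T
      induction T with
      | nil => simp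
      | cons t T ih =>
        rw [List.map_cons, List.sum_cons, List.length_cons]
        have := tval_le (ex_norm hz) t
        push_cast
        linarith
    exact this T
  · apply le_mu (z := fun v : Fin (nv T) => om ^ (χ v.val).val)
    · intro i; rw [norm_pow, norm_om, one_pow]
    · rw [obj_eq hT, one_pow, le_div_iff₀ (by positivity), one_mul]
      have hval : ∀ t ∈ T, tval (ex fun v : Fin (nv T) => om ^ (χ v.val).val) t = 9 := by
        intro t ht
        have hlt := mem_lt_nv ht
        have e1 : ∀ u, u < nv T → ex (fun v : Fin (nv T) => om ^ (χ v.val).val) u =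
            om ^ (χ u).val := by
          intro u hu; simp [ex, hu]
        unfold tval
        rw [e1 t.1 (by omega), e1 t.2.1 (by omega), e1 t.2.2 (by omega)]
        have hd : ∀ k l : Fin 3, k ≠ l → ‖om ^ k.val - om ^ l.val‖ ^ 2 = 3 := by
          intro k l hkl
          have h2 : ∀ k : Fin 3, om ^ k.val = om ^ (2 * (2 * k).val) := by
            intro k
            have h3 := om_cube
            fin_cases k
            · rfl
            · show om ^ 1 = om ^ 4
              linear_combination (-om) * h3
            · show om ^ 2 = om ^ 2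
              rfl
          rw [h2 k, h2 l]
          apply om_diff
          intro h'
          apply hkl
          revert h'
          fin_cases k <;> fin_cases l <;> decide
        obtain ⟨a1, a2, a3⟩ := h t ht
        rw [hd _ _ a1, hd _ _ a2, hd _ _ a3]
        norm_num
      have : ∀ T' : List Tri, (∀ t ∈ T', tval (ex fun v : Fin (nv T) => om ^ (χ v.val).val) t = 9)
          → (T'.map (tval (ex fun v : Fin (nv T) => om ^ (χ v.val).val))).sum = 9 * T'.length := by
        intro T' h'
        induction T' with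
        | nil => simp
        | cons t T' ih =>
          rw [List.map_cons, List.sum_cons, List.length_cons, h' t List.mem_cons_self,
            ih (fun t ht => h' t (List.mem_cons_of_mem _ ht))]
          push_cast
          ring
      rw [this T hval]

/-- upper bound for `μ` from an upper bound for the quadratic form -/
theorem mu_no {T : List Tri} (hT : T ≠ []) {c : ℝ} (hc : 0 ≤ c)
    (h : ∀ x : ℕ → ℂ, (∀ v, ‖x v‖ ≤ 1) → (T.map (tval x)).sum ≤ 9 * T.length * c ^ 4) :
    (instOf T).mu ≤ c := by
  have hm : (0 : ℝ) < T.length := by exact_mod_cast List.length_pos_iff.2 hT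
  have hmu : (instOf T).mu = mu (bs (RT T + 1) (nv T))
      (loopM 0 1 (RT T + 1) (nv T) (fun a i => toC (AT T a i))) := by
    unfold Inst.mu
    show mu (bs (RT T + 1) (nv T))
      ((loopM (0, 0) (1, 0) (RT T + 1) (nv T) (AT T)).map toC) = _
    rw [loopM_map]
  rw [hmu]
  apply mu_le hc
  intro z hz
  rw [obj_eq hT, div_le_iff₀ (by positivity)]
  have := h _ (ex_norm hz)
  linarith

/-- the reduction on formulas -/
def red (φ : List Cl) : Inst := instOf (tri φ)

/-- **Gap of the reduction.** -/
theorem red_gap {eps : ℝ} (heps : 0 < eps) : ∃ c : ℝ, 0 < c ∧ c < 1 ∧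
    ∀ φ : List Cl, φ ≠ [] → (Sat3 φ → (red φ).mu = 1) ∧
      ((∀ τ : ℕ → Bool, eps * φ.length ≤ nfalse τ φ) → (red φ).mu ≤ c) := by
  obtain ⟨δ, hδ, hround⟩ := rounding (β := eps / 11) (by positivity)
  set d : ℝ := min δ (1 / 2) with hd
  have hd0 : 0 < d := lt_min hδ (by norm_num)
  have hd1 : d ≤ 1 / 2 := min_le_right _ _
  have hdδ : d ≤ δ := min_le_left _ _
  have h1d : 0 < 1 - d := by linarith
  refine ⟨√(√(1 - d)), by positivity, ?_, ?_⟩
  · rw [Real.sqrt_lt' one_pos, one_pow, Real.sqrt_lt' one_pos, one_pow]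
    linarith
  · intro φ hφ
    have hT : tri φ ≠ [] := by
      rw [← List.length_pos_iff, tri_length]
      have := List.length_pos_iff.2 hφ
      omega
    constructor
    · rintro ⟨τ, hτ⟩
      exact mu_yes hT (tri_complete hτ)
    · intro hgap
      apply mu_no hT (by positivity)
      intro x hx
      have hc4 : √(√(1 - d)) ^ 4 = 1 - d := by
        have : √(√(1 - d)) ^ 4 = (√(√(1 - d)) ^ 2) ^ 2 := by ring
        rw [this, Real.sq_sqrt (Real.sqrt_nonneg _), Real.sq_sqrt h1d.le]
      rw [hc4]
      have h2 := hround (tri φ) (by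
        intro χ
        have h3 := tri_sound χ φ
        have h4 := hgap (rd χ)
        rw [tri_length]
        have h5 : ((nfalse (rd χ) φ : ℕ) : ℝ) ≤ nbad χ (tri φ) := by exact_mod_cast h3
        push_cast
        calc eps / 11 * (11 * (φ.length : ℝ)) = eps * φ.length := by ring
          _ ≤ nfalse (rd χ) φ := h4
          _ ≤ _ := h5) x hx
      refine h2.trans ?_
      have : (0 : ℝ) ≤ 9 * (tri φ).length := by positivity
      exact mul_le_mul_of_nonneg_left (by linarith) this

end Pool.Agent.MP_54e0c2_lc
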