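import Pool.Agent.MP_54e0c2_lc.Norm
import Pool.Agent.Lib.helper60.Bridge

/-!
The reduction is computable in polynomial time.
-/

namespace Pool.Agent.MP_54e0c2_lc

open Pool.Agent.H66 (Cl LitSat ClSat Sat3)
open Pool.Agent.Lib.helper60 Function

/-! ### Binary numerals -/

/-- binary successor -/
def inc' : List Bool → List Bool
  | [] => [true]
  | false :: l => true :: l
  | true :: l => false :: inc' l

lemma encodePosNum_succ (p : PosNum) :
    Computability.encodePosNum p.succ = inc' (Computability.encodePosNum p) := by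
  induction p with
  | one => rfl
  | bit1 p ih =>
    show Computability.encodePosNum (PosNum.bit0 p.succ) = _
    simp only [Computability.encodePosNum, inc', ih]
  | bit0 p ih => rfl

lemma encodeNum_succ (n : Num) :
    Computability.encodeNum n.succ = inc' (Computability.encodeNum n) := by
  cases n with
  | zero => rfl
  | pos p => exact encodePosNum_succ p

lemma encodeNat_succ (n : ℕ) :
    Computability.encodeNat (n + 1) = inc' (Computability.encodeNat n) := by
  unfold Computability.encodeNat
  rw [← encodeNum_succ]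
  congr 1
  rw [Nat.cast_succ, Num.add_one]

/-- step of the fold that computes the successor -/
def incStep (st : Bool × List Bool) (b : Bool) : Bool × List Bool :=
  (st.1 && b, (xor st.1 b) :: st.2)

/-- end of the fold -/
def incFin (st : Bool × List Bool) : List Bool :=
  (bif st.1 then true :: st.2 else st.2).reverse

lemma inc_fold (l : List Bool) : ∀ acc : List Bool,
    incFin (l.foldl incStep (true, acc)) = acc.reverse ++ inc' l ∧
    incFin (l.foldl incStep (false, acc)) = acc.reverse ++ l := by
  induction l with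
  | nil => intro acc; simp [incFin, inc']
  | cons b l ih =>
    intro acc
    cases b with
    | false =>
      constructor
      · have h := (ih (true :: acc)).2
        simpa [incStep, inc'] using h
      · have h := (ih (false :: acc)).2
        simpa [incStep] using h
    | true =>
      constructor
      · have h := (ih (false :: acc)).1
        simpa [incStep, inc'] using h
      · have h := (ih (true :: acc)).2
        simpa [incStep] using h

lemma inc'_length (l : List Bool) : (inc' l).length ≤ l.length + 1 := by
  induction l with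
  | nil => simp [inc']
  | cons b l ih => cases b <;> simp [inc']; omega

lemma PT_inc : PT inc' := by
  have hg : PT (fun y : List Bool × (Bool × List Bool) × Bool => incStep y.2.1 y.2.2) := by
    unfold incStep
    refine PT.pair (PT.band PT.snd.p1.p1 PT.snd.p2) (PT.cons ?_ PT.snd.p1.p2)
    have h := PT.dnot (p := fun y : List Bool × (Bool × List Bool) × Bool => y.2.1.1 = y.2.2)
      (PT.beq PT.snd.p1.p1 PT.snd.p2)
    refine h.congr ?_
    rintro ⟨_, ⟨a, _⟩, b⟩
    cases a <;> cases b <;> rfl
  have h1 := PT.foldl_lin (l := fun l : List Bool => l)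
    (init := fun _ => ((true, []) : Bool × List Bool))
    (g := fun y : List Bool × (Bool × List Bool) × Bool => incStep y.2.1 y.2.2) PT.id
    (PT.const _) hg 10 (by
      intro x s b
      obtain ⟨c, acc⟩ := s
      unfold incStep
      simp only [tsize_pair, tsize_cons]
      have h1 := tsize_bool_le (c && b)
      have h2 := tsize_bool_le (xor c b)
      omega)
  have h2 : PT incFin := by
    unfold incFin
    exact PT.reverse (PT.cond PT.fst (PT.cons (PT.const true) PT.snd) PT.snd)
  refine (h2.comp h1).congr ?_
  intro l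
  have := (inc_fold l []).1
  simpa using this

lemma encodeNat_iter (n : ℕ) : Computability.encodeNat n = inc'^[n] [] := by
  induction n with
  | zero => rfl
  | succ n ih => rw [encodeNat_succ, ih, iterate_succ_apply']

lemma PT_encodeNat : PT Computability.encodeNat := by
  have hlen : ∀ i, (inc'^[i] ([] : List Bool)).length ≤ i := by
    intro i
    induction i with
    | zero => simp
    | succ i ih =>
      rw [iterate_succ_apply']
      have := inc'_length (inc'^[i] [])
      omega
  have h := PT.iterateNat (count := fun n : ℕ => n) (init := fun _ => ([] : List Bool))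
    (step := inc') PT.id (PT.const []) PT_inc ⟨fun n => 4 * tsize n + 1,
      ((PB.const 4).mul PB.tsize).add (PB.const 1), by
      intro n i hi
      have h1 := tsize_bits_le (inc'^[i] ([] : List Bool))
      have h2 := hlen i
      have h3 := tsize_nat n
      beta_reduce
      omega⟩
  exact h.congr (fun n => (encodeNat_iter n).symm)

lemma PT_encNat : PT encNat := by
  unfold encNat
  refine PT.append ?_ (PT.const [false])
  exact PT.flatMap (g := fun y : ℕ × Bool => [true, y.2]) PT_encodeNat
    (PT.cons (PT.const true) (PT.cons PT.snd (PT.const [])))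

/-! ### The code of the instance of a list of triples -/

lemma flatMap_finRange {α : Type} (n : ℕ) (h : ℕ → List α) :
    (List.finRange n).flatMap (fun i => h i.val) = (List.range n).flatMap h := by
  rw [← List.map_coe_finRange_eq_range, List.flatMap_map]

lemma flatMap_indices {α : Type} (R n : ℕ) (g : (Σ i, Fin (bs R n i)) → List α) :
    (indices (bs R n)).flatMap g =
      (List.finRange R).flatMap (fun a => g ⟨0, a⟩) ++
        (List.finRange n).flatMap (fun i : Fin n => g ⟨i.succ, (0 : Fin 1)⟩) := by
  unfold indices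
  rw [List.finRange_succ, List.flatMap_cons, List.flatMap_append, List.flatMap_map]
  congr 1
  rw [List.flatMap_map, List.flatMap_assoc]
  congr 1
  funext i
  have h1 : (List.finRange (bs R n i.succ)).map (fun a => (⟨i.succ, a⟩ : Σ i, Fin (bs R n i))) =
      [⟨i.succ, (0 : Fin 1)⟩] := rfl
  show ((List.finRange (bs R n i.succ)).map
    (fun a => (⟨i.succ, a⟩ : Σ i, Fin (bs R n i)))).flatMap g = _
  rw [h1]
  simp

/-- code of zero -/
def Zc : List Bool := encGauss (0, 0)
/-- code of one -/
def Oc : List Bool := encGauss (1, 0)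
/-- code of `1 / n` -/
def Pc (n : ℕ) : List Bool := (false :: (encNat 1 ++ encNat n)) ++ encRat 0
/-- code of `-1 / n` -/
def Nc (n : ℕ) : List Bool := (true :: (encNat 1 ++ encNat n)) ++ encRat 0

lemma encGauss_pos {n : ℕ} (hn : 0 < n) : encGauss (1 / (n : ℚ), 0) = Pc n := by
  unfold encGauss Pc
  congr 1
  unfold encRat
  rw [one_div, Rat.inv_natCast_num_of_pos hn, Rat.inv_natCast_den_of_pos hn]
  rfl

lemma encGauss_neg {n : ℕ} (hn : 0 < n) : encGauss (-(1 / (n : ℚ)), 0) = Nc n := by
  unfold encGauss Nc
  congr 1
  have h1 : (-(1 / (n : ℚ))).num = -1 := by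
    rw [one_div, Rat.neg_num, Rat.inv_natCast_num_of_pos hn]
  have h2 : (-(1 / (n : ℚ))).den = n := by
    rw [one_div, Rat.neg_den, Rat.inv_natCast_den_of_pos hn]
  unfold encRat
  simp only
  rw [h2]
  simp only [h1]
  rfl

/-- code of an entry -/
def entC (T : List Tri) (a i : ℕ) : List Bool :=
  if i = ((rows T).getD a (0, 0)).1 then
    (if i = ((rows T).getD a (0, 0)).2 then Zc else Pc (3 * T.length))
  else if i = ((rows T).getD a (0, 0)).2 then Nc (3 * T.length) else Zc

lemma entC_eq (T : List Tri) (a i : ℕ) : encGauss (AT T a i) = entC T a i := by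
  by_cases hT : T = []
  · subst hT
    have h : (rows []).getD a (0, 0) = (0, 0) := by simp [rows]
    unfold AT entC ent
    rw [h]
    simp only
    by_cases hi : i = 0
    · simp [hi, Zc]
    · simp [hi, Zc]
  · have hm : 0 < 3 * T.length := by
      have := List.length_pos_iff.2 hT
      omega
    unfold AT entC ent
    split_ifs
    · rfl
    · exact encGauss_pos hm
    · exact encGauss_neg hm
    · rfl

/-- the code of the instance, written with ranges only -/
def encT (T : List Tri) : List Bool :=
  encNat (nv T + 1) ++ (encNat (RT T + 1) ++ (List.range (nv T)).flatMap (fun _ => encNat 1)) ++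
    ((List.range (RT T + 1)).flatMap (fun a =>
      (List.range (RT T + 1)).flatMap (fun _ => Zc) ++
        (List.range (nv T)).flatMap (fun i => entC T a i)) ++
      (List.range (nv T)).flatMap (fun _ =>
        (Oc ++ (List.range (RT T)).flatMap (fun _ => Zc)) ++
          (List.range (nv T)).flatMap (fun _ => Zc)))

theorem encT_eq (T : List Tri) : (instOf T).encode = encT T := by
  unfold Inst.encode encT
  congr 1
  · congr 1
    show (List.finRange (nv T + 1)).flatMap (fun i => encNat (bs (RT T + 1) (nv T) i)) = _
    rw [List.finRange_succ, List.flatMap_cons, List.flatMap_map]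
    congr 1
    exact flatMap_finRange (nv T) (fun _ => encNat 1)
  · show (indices (bs (RT T + 1) (nv T))).flatMap (fun p =>
      (indices (bs (RT T + 1) (nv T))).flatMap (fun q =>
        encGauss (loopM (0, 0) (1, 0) (RT T + 1) (nv T) (AT T) p q))) = _
    rw [flatMap_indices]
    congr 1
    · rw [← flatMap_finRange (RT T + 1)]
      congr 1
      funext a
      rw [flatMap_indices]
      congr 1
      · rw [← flatMap_finRange (RT T + 1)]
        rfl
      · rw [← flatMap_finRange (nv T)]
        congr 1
        funext i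
        rw [← entC_eq]
        congr 1
    · rw [← flatMap_finRange (nv T)]
      congr 1
      funext i
      rw [flatMap_indices]
      congr 1
      · have e : ∀ a : Fin (RT T + 1), encGauss (loopM (0, 0) (1, 0) (RT T + 1) (nv T) (AT T)
            ⟨i.succ, (0 : Fin 1)⟩ ⟨0, a⟩) = (fun n : ℕ => if n = 0 then Oc else Zc) a.val := by
          intro a
          by_cases ha : a.val = 0
          · simp [loopM, ha, Oc]
          · simp [loopM, ha, Zc]
        show (List.finRange (RT T + 1)).flatMap (fun a : Fin (RT T + 1) =>
          encGauss (loopM (0, 0) (1, 0) (RT T + 1) (nv T) (AT T)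
            ⟨i.succ, (0 : Fin 1)⟩ ⟨0, a⟩)) = _
        simp only [e]
        rw [flatMap_finRange (RT T + 1) (fun n : ℕ => if n = 0 then Oc else Zc),
          List.range_succ_eq_map, List.flatMap_cons, List.flatMap_map]
        rfl
      · rw [← flatMap_finRange (nv T)]
        rfl

/-! ### Polynomial time -/

section
variable {α : Type} [DEnc α]

lemma PT_edges : PT edges := by
  unfold edges
  refine PT.flatMap (g := fun z : List Tri × Tri =>
    [(z.2.1, z.2.2.1), (z.2.2.1, z.2.2.2), (z.2.2.2, z.2.1)]) PT.id ?_
  exact PT.cons (PT.pair PT.snd.p1 PT.snd.p2.p1) (PT.cons (PT.pair PT.snd.p2.p1 PT.snd.p2.p2)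
    (PT.cons (PT.pair PT.snd.p2.p2 PT.snd.p1) (PT.const [])))

lemma PT_rows : PT rows := by
  unfold rows
  exact PT.flatMap (g := fun z : List Tri × ℕ => edges z.1) (PT.range (PT.length PT.id))
    (PT_edges.comp PT.fst)

lemma PT_nsum {l : α → List ℕ} (hl : PT l) : PT (fun x => (l x).sum) := by
  have h := PT.foldl (init := fun _ => 0) (g := fun y : α × ℕ × ℕ => y.2.2 + y.2.1)
    (PT.reverse hl) (PT.const 0) (PT.nadd PT.snd.p2 PT.snd.p1)
    ⟨fun x => 2 * tsize (l x) + 1, ((PB.const 2).mul hl.size).add (PB.const 1), by
      intro x l₁ l₂ h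
      have e : ∀ (u : List ℕ) (v : ℕ), u.foldl (fun s b => b + s) v = u.sum + v := by
        intro u
        induction u with
        | nil => intro v; simp
        | cons b u ih => intro v; simp only [List.foldl_cons, ih, List.sum_cons]; omega
      have e2 : ∀ u : List ℕ, u.sum ≤ tsize u := by
        intro u
        induction u with
        | nil => simp
        | cons b u ih => simp only [List.sum_cons, tsize_cons, tsize_nat]; omega
      rw [e, tsize_nat]
      have h3 := tsize_append l₁ l₂
      rw [h, tsize_reverse] at h3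
      have h4 := e2 l₁
      have h5 := tsize_pos l₂
      beta_reduce
      omega⟩
  refine h.congr fun x => ?_
  have e : ∀ (u : List ℕ) (v : ℕ), u.foldl (fun s b => b + s) v = u.sum + v := by
    intro u
    induction u with
    | nil => intro v; simp
    | cons b u ih => intro v; simp only [List.foldl_cons, ih, List.sum_cons]; omega
  rw [e]
  simp

lemma PT_nv : PT nv := by
  unfold nv
  refine PT.nsucc (PT_nsum ?_)
  exact PT.map (g := fun z : List Tri × Tri => z.2.1 + z.2.2.1 + z.2.2.2) PT.id
    (PT.nadd (PT.nadd PT.snd.p1 PT.snd.p2.p1) PT.snd.p2.p2)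

lemma PT_RT : PT RT := by
  unfold RT
  exact PT.nmul (PT.length PT.id) (PT.nmul (PT.const 3) (PT.length PT.id))

lemma PT_Pc {f : α → ℕ} (hf : PT f) : PT (fun x => Pc (f x)) := by
  unfold Pc
  exact PT.append (PT.cons (PT.const false) (PT.append (PT.const (encNat 1))
    (PT_encNat.comp hf))) (PT.const (encRat 0))

lemma PT_Nc {f : α → ℕ} (hf : PT f) : PT (fun x => Nc (f x)) := by
  unfold Nc
  exact PT.append (PT.cons (PT.const true) (PT.append (PT.const (encNat 1))
    (PT_encNat.comp hf))) (PT.const (encRat 0))

lemma PT_entC {T : α → List Tri} {a i : α → ℕ} (hT : PT T) (ha : PT a) (hi : PT i) :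
    PT (fun x => entC (T x) (a x) (i x)) := by
  have he : PT (fun x => (rows (T x)).getD (a x) (0, 0)) :=
    PT.getD (PT_rows.comp hT) ha (PT.const (0, 0))
  have hm : PT (fun x => 3 * (T x).length) := PT.nmul (PT.const 3) (PT.length hT)
  unfold entC
  exact PT.ite (PT.neq hi he.p1) (PT.ite (PT.neq hi he.p2) (PT.const Zc) (PT_Pc hm))
    (PT.ite (PT.neq hi he.p2) (PT_Nc hm) (PT.const Zc))

theorem PT_encT : PT encT := by
  have hn : PT (fun T : List Tri => nv T) := PT_nv
  have hR : PT (fun T : List Tri => RT T) := PT_RT
  unfold encT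
  refine PT.append (PT.append (PT_encNat.comp (PT.nsucc hn)) (PT.append
    (PT_encNat.comp (PT.nsucc hR)) ?_)) (PT.append ?_ ?_)
  · exact PT.flatMap (g := fun _ : List Tri × ℕ => encNat 1) (PT.range hn) (PT.const _)
  · refine PT.flatMap (g := fun z : List Tri × ℕ =>
      (List.range (RT z.1 + 1)).flatMap (fun _ => Zc) ++
        (List.range (nv z.1)).flatMap (fun i => entC z.1 z.2 i)) (PT.range (PT.nsucc hR)) ?_
    refine PT.append ?_ ?_
    · exact PT.flatMap (g := fun _ : (List Tri × ℕ) × ℕ => Zc)
        (PT.range (PT.nsucc (hR.comp PT.fst))) (PT.const _)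
    · exact PT.flatMap (g := fun y : (List Tri × ℕ) × ℕ => entC y.1.1 y.1.2 y.2)
        (PT.range (hn.comp PT.fst)) (PT_entC PT.fst.p1 PT.fst.p2 PT.snd)
  · refine PT.flatMap (g := fun z : List Tri × ℕ =>
      (Oc ++ (List.range (RT z.1)).flatMap (fun _ => Zc)) ++
          (List.range (nv z.1)).flatMap (fun _ => Zc)) (PT.range hn) ?_
    refine PT.append (PT.append (PT.const _) ?_) ?_
    · exact PT.flatMap (g := fun _ : (List Tri × ℕ) × ℕ => Zc)
        (PT.range (hR.comp PT.fst)) (PT.const _)
    · exact PT.flatMap (g := fun _ : (List Tri × ℕ) × ℕ => Zc)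
        (PT.range (hn.comp PT.fst)) (PT.const _)

lemma PT_bnat {f : α → Bool} (hf : PT f) (u v : ℕ) : PT (fun x => if f x then u else v) :=
  (PT.cond hf (PT.const u) (PT.const v)).congr fun x => by cases f x <;> rfl

lemma PT_lv {l : α → H66.Lit} (hl : PT l) : PT (fun x => lv (l x)) := by
  unfold lv
  exact PT.nadd (PT.const 3) (PT.nmul (PT.const 2) (PT.nadd (PT.nmul (PT.const 2) hl.p2)
    (PT_bnat hl.p1 1 0)))

lemma PT_lvn {l : α → H66.Lit} (hl : PT l) : PT (fun x => lvn (l x)) := by
  unfold lvn
  exact PT.nadd (PT.const 3) (PT.nmul (PT.const 2) (PT.nadd (PT.nmul (PT.const 2) hl.p2)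
    (PT_bnat hl.p1 0 1)))

lemma PT_pv {i : α → ℕ} (hi : PT i) (j : ℕ) : PT (fun x => pv (i x) j) := by
  unfold pv
  exact PT.nadd (PT.const 4) (PT.nmul (PT.const 2) (PT.nadd (PT.nmul (PT.const 10) hi)
    (PT.const j)))

lemma PT_grp {i : α → ℕ} {c : α → Cl} (hi : PT i) (hc : PT c) :
    PT (fun x => grp (i x) (c x)) := by
  have l1 := PT_lv hc.p1
  have l2 := PT_lv hc.p2.p1
  have l3 := PT_lv hc.p2.p2
  have n1 := PT_lvn hc.p1
  have n2 := PT_lvn hc.p2.p1
  have n3 := PT_lvn hc.p2.p2
  have p := PT_pv hi
  unfold grp
  exact PT.cons (PT.pair l1 (PT.pair n1 (PT.const 2))) (PT.cons (PT.pair l2 (PT.pair n2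
    (PT.const 2))) (PT.cons (PT.pair l3 (PT.pair n3 (PT.const 2))) (PT.cons (PT.pair (p 0)
    (PT.pair (p 1) (p 2))) (PT.cons (PT.pair l1 (PT.pair (p 0) (p 6))) (PT.cons (PT.pair l2
    (PT.pair (p 1) (p 7))) (PT.cons (PT.pair (p 3) (PT.pair (p 4) (p 5))) (PT.cons (PT.pair
    (p 2) (PT.pair (p 3) (p 8))) (PT.cons (PT.pair l3 (PT.pair (p 4) (p 9))) (PT.cons (PT.pair
    (p 5) (PT.const (1, 2))) (PT.cons (PT.const (0, 1, 2)) (PT.const [])))))))))))

theorem PT_tri : PT tri := by
  unfold tri
  refine PT.flatMap (g := fun z : List Cl × ℕ =>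
    grp z.2 (z.1.getD z.2 ((false, 0), (false, 0), (false, 0)))) (PT.range (PT.length PT.id)) ?_
  exact PT_grp PT.snd (PT.getD PT.fst PT.snd (PT.const _))

/-- the code of the reduction is computable in polynomial time -/
theorem PT_red : PT (fun φ : List Cl => (red φ).encode) :=
  (PT_encT.comp PT_tri).congr fun φ => (encT_eq (tri φ)).symm

end

end Pool.Agent.MP_54e0c2_lc
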