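import Mathlib

/-!
Rounding: if every 3-colouring of a list of triples leaves a constant fraction of the triples not
rainbow, then the quadratic form `∑ (|x_a - x_b|² + |x_b - x_c|² + |x_c - x_a|²)` is bounded away
from `9` times the number of triples on the polydisk.
-/

namespace Pool.Agent.MP_54e0c2_lc

open Finset

/-- a primitive third root of unity -/
noncomputable def om : ℂ := ⟨-1/2, √3/2⟩

lemma sqrt3_sq : √3 * √3 = 3 := Real.mul_self_sqrt (by norm_num)

lemma om_sq : om ^ 2 = ⟨-1/2, -(√3/2)⟩ := by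
  apply Complex.ext
  · simp only [om, sq, Complex.mul_re]
    nlinarith [sqrt3_sq]
  · simp only [om, sq, Complex.mul_im]
    ring

lemma om_cube : om ^ 3 = 1 := by
  rw [pow_succ, om_sq]
  apply Complex.ext
  · simp only [om, Complex.mul_re, Complex.one_re]
    nlinarith [sqrt3_sq]
  · simp only [om, Complex.mul_im, Complex.one_im]
    ring

lemma om_sum : om ^ 2 + om + 1 = 0 := by
  rw [om_sq]
  apply Complex.ext
  · simp [om]
    try norm_num
  · simp [om]

lemma conj_om : (starRingEnd ℂ) om = om ^ 2 := by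
  rw [om_sq]
  apply Complex.ext <;> simp [om]

lemma norm_om : ‖om‖ = 1 := by
  have h := norm_pow om 3
  rw [om_cube, norm_one] at h
  have h0 := norm_nonneg om
  have : ‖om‖ ^ 3 = 1 ^ 3 := by rw [← h]; norm_num
  exact (pow_left_inj₀ h0 zero_le_one (by norm_num)).1 this

/-- the functional that decides the colour -/
noncomputable def F (e z : ℂ) (k : Fin 3) : ℝ := (z * (starRingEnd ℂ) e * om ^ (2 * k.val)).re

lemma F_shift1 (e z : ℂ) (k : Fin 3) : F e (z * om) (k + 1) = F e z k := by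
  unfold F
  congr 1
  have h3 := om_cube
  fin_cases k
  · show z * om * (starRingEnd ℂ) e * om ^ 2 = z * (starRingEnd ℂ) e * om ^ 0
    linear_combination (z * (starRingEnd ℂ) e) * h3
  · show z * om * (starRingEnd ℂ) e * om ^ 4 = z * (starRingEnd ℂ) e * om ^ 2
    linear_combination (z * (starRingEnd ℂ) e * om ^ 2) * h3
  · show z * om * (starRingEnd ℂ) e * om ^ 0 = z * (starRingEnd ℂ) e * om ^ 4
    linear_combination (-(z * (starRingEnd ℂ) e * om)) * h3

lemma F_shift2 (e z : ℂ) (k : Fin 3) : F e (z * om ^ 2) (k + 2) = F e z k := by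
  have h1 := F_shift1 e z k
  have h2 := F_shift1 e (z * om) (k + 1)
  have e1 : z * om ^ 2 = z * om * om := by ring
  have e2 : k + 2 = k + 1 + 1 := by rw [add_assoc]; rfl
  rw [e1, e2, h2, h1]

lemma F_close (e z z' : ℂ) (k : Fin 3) : |F e z k - F e z' k| ≤ ‖z - z'‖ * ‖e‖ := by
  unfold F
  rw [← Complex.sub_re]
  refine (Complex.abs_re_le_norm _).trans ?_
  rw [← sub_mul, ← sub_mul, norm_mul, norm_mul, norm_pow, norm_om, one_pow, mul_one,
    RCLike.norm_conj]

/-- the colour of `z` in direction `e` -/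
noncomputable def col (e z : ℂ) : Fin 3 := (Finite.exists_max (F e z)).choose

lemma col_max (e z : ℂ) (l : Fin 3) : F e z l ≤ F e z (col e z) :=
  (Finite.exists_max (F e z)).choose_spec l

lemma col_eq {e z : ℂ} {k : Fin 3} (h : ∀ l, l ≠ k → F e z l < F e z k) : col e z = k := by
  by_contra hne
  have h1 := h _ hne
  have h2 := col_max e z k
  linarith

/-- the largest value exceeds the others by `κ` -/
def Margin (κ : ℝ) (e z : ℂ) : Prop := ∃ k : Fin 3, ∀ l, l ≠ k → F e z l + κ < F e z k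

lemma col_near1 {κ η : ℝ} {e z b : ℂ} {k : Fin 3} (hκ : 2 * (η * ‖e‖) ≤ κ)
    (hk : ∀ l, l ≠ k → F e z l + κ < F e z k) (hb : ‖b - z * om‖ ≤ η) : col e b = k + 1 := by
  apply col_eq
  intro l hl
  have hc : ∀ m, |F e b m - F e (z * om) m| ≤ η * ‖e‖ := fun m =>
    (F_close e b (z * om) m).trans (mul_le_mul_of_nonneg_right hb (norm_nonneg _))
  have h1 := hk (l - 1) (fun h => hl (sub_eq_iff_eq_add.1 h))
  have h2 := F_shift1 e z (l - 1)
  rw [sub_add_cancel] at h2
  have h3 := F_shift1 e z k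
  have h4 := abs_le.1 (hc l)
  have h5 := abs_le.1 (hc (k + 1))
  linarith [h4.1, h4.2, h5.1, h5.2]

lemma col_near2 {κ η : ℝ} {e z b : ℂ} {k : Fin 3} (hκ : 2 * (η * ‖e‖) ≤ κ)
    (hk : ∀ l, l ≠ k → F e z l + κ < F e z k) (hb : ‖b - z * om ^ 2‖ ≤ η) :
    col e b = k + 2 := by
  apply col_eq
  intro l hl
  have hc : ∀ m, |F e b m - F e (z * om ^ 2) m| ≤ η * ‖e‖ := fun m =>
    (F_close e b (z * om ^ 2) m).trans (mul_le_mul_of_nonneg_right hb (norm_nonneg _))
  have h1 := hk (l - 2) (fun h => hl (sub_eq_iff_eq_add.1 h))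
  have h2 := F_shift2 e z (l - 2)
  rw [sub_add_cancel] at h2
  have h3 := F_shift2 e z k
  have h4 := abs_le.1 (hc l)
  have h5 := abs_le.1 (hc (k + 2))
  linarith [h4.1, h4.2, h5.1, h5.2]

/-- the directions used -/
noncomputable def dir (j : ℕ) : ℂ := ⟨1, j⟩

lemma norm_dir_le (j : ℕ) : ‖dir j‖ ≤ 1 + j := by
  have h : dir j = 1 + (j : ℂ) * Complex.I := by
    apply Complex.ext <;> simp [dir]
  rw [h]
  refine (norm_add_le _ _).trans ?_
  simp

lemma F_sub (j : ℕ) (z : ℂ) (k l : Fin 3) : F (dir j) z k - F (dir j) z l =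
    (z * (om ^ (2 * k.val) - om ^ (2 * l.val))).re +
      j * (z * (om ^ (2 * k.val) - om ^ (2 * l.val))).im := by
  unfold F
  rw [← Complex.sub_re]
  have : z * (starRingEnd ℂ) (dir j) * om ^ (2 * k.val) -
      z * (starRingEnd ℂ) (dir j) * om ^ (2 * l.val) =
      (starRingEnd ℂ) (dir j) * (z * (om ^ (2 * k.val) - om ^ (2 * l.val))) := by ring
  rw [this, Complex.mul_re]
  simp [dir]

lemma om_diff {k l : Fin 3} (h : k ≠ l) : ‖om ^ (2 * k.val) - om ^ (2 * l.val)‖ ^ 2 = 3 := by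
  have h4 : om ^ 4 = om := by
    have : om ^ 4 = om ^ 3 * om := by ring
    rw [this, om_cube, one_mul]
  have hs := sqrt3_sq
  have e1 : ‖(1 : ℂ) - om ^ 2‖ ^ 2 = 3 := by
    rw [Complex.sq_norm, Complex.normSq_apply, om_sq]
    simp only [Complex.sub_re, Complex.sub_im, Complex.one_re, Complex.one_im]
    nlinarith
  have e2 : ‖(1 : ℂ) - om‖ ^ 2 = 3 := by
    rw [Complex.sq_norm, Complex.normSq_apply]
    simp only [Complex.sub_re, Complex.sub_im, Complex.one_re, Complex.one_im, om]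
    nlinarith
  have e3 : ‖om ^ 2 - om‖ ^ 2 = 3 := by
    rw [Complex.sq_norm, Complex.normSq_apply, om_sq]
    simp only [Complex.sub_re, Complex.sub_im, om]
    nlinarith
  fin_cases k <;> fin_cases l
  · exact absurd rfl h
  · show ‖om ^ 0 - om ^ 2‖ ^ 2 = 3
    rw [pow_zero]; exact e1
  · show ‖om ^ 0 - om ^ 4‖ ^ 2 = 3
    rw [pow_zero, h4]; exact e2
  · show ‖om ^ 2 - om ^ 0‖ ^ 2 = 3
    rw [pow_zero, norm_sub_rev]; exact e1
  · exact absurd rfl h
  · show ‖om ^ 2 - om ^ 4‖ ^ 2 = 3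
    rw [h4]; exact e3
  · show ‖om ^ 4 - om ^ 0‖ ^ 2 = 3
    rw [pow_zero, h4, norm_sub_rev]; exact e2
  · show ‖om ^ 4 - om ^ 2‖ ^ 2 = 3
    rw [h4, norm_sub_rev]; exact e3
  · exact absurd rfl h

/-- few directions have no margin -/
lemma card_no_margin {N : ℕ} {z : ℂ} (hz : 1 / 2 ≤ ‖z‖) :
    ∑ j ∈ range N, (open Classical in if Margin (1 / (4 * ((N : ℝ) + 1))) (dir j) z then 0 else 1) ≤
      (9 : ℕ) := by
  classical
  set κ : ℝ := 1 / (4 * ((N : ℝ) + 1)) with hκ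
  have hN : (0 : ℝ) < (N : ℝ) + 1 := by positivity
  have hκ0 : 0 < κ := by positivity
  have hκN : κ * ((N : ℝ) + 1) = 1 / 4 := by rw [hκ]; field_simp
  -- each direction without margin gives a pair
  have hpair : ∀ j, ¬ Margin κ (dir j) z → ∃ p : Fin 3 × Fin 3, p.1 ≠ p.2 ∧
      |F (dir j) z p.1 - F (dir j) z p.2| ≤ κ := by
    intro j hj
    unfold Margin at hj
    push Not at hj
    obtain ⟨l, hl, hl'⟩ := hj (col (dir j) z)
    refine ⟨(col (dir j) z, l), hl.symm, ?_⟩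
    rw [abs_le]
    have := col_max (dir j) z l
    constructor <;> simp only <;> linarith
  have hcard : ((range N).filter (fun j => ¬ Margin κ (dir j) z)).card ≤ 9 := by
    choose! p hp using hpair
    have : Fintype.card (Fin 3 × Fin 3) = 9 := by simp
    rw [← this, ← Finset.card_univ]
    apply Finset.card_le_card_of_injOn p (fun _ _ => Finset.mem_coe.2 (Finset.mem_univ _))
    intro j hj j' hj' hpp
    simp only [Finset.coe_filter, Finset.mem_range, Set.mem_ofPred_eq] at hj hj'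
    by_contra hne
    obtain ⟨h1, h2⟩ := hp j hj.2
    obtain ⟨_, h3⟩ := hp j' hj'.2
    rw [← hpp] at h3
    rw [F_sub] at h2 h3
    set u := z * (om ^ (2 * (p j).1.val) - om ^ (2 * (p j).2.val)) with hu
    have hun : ‖u‖ ^ 2 = 3 * ‖z‖ ^ 2 := by
      rw [hu, norm_mul, mul_pow, om_diff h1]; ring
    have hu2 : ‖u‖ ^ 2 = u.re ^ 2 + u.im ^ 2 := by
      rw [Complex.sq_norm, Complex.normSq_apply]; ring
    -- bound for the imaginary part
    have him : |u.im| ≤ 2 * κ := by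
      have hd : (1 : ℝ) ≤ |(j : ℝ) - j'| := by
        have : (1 : ℤ) ≤ |(j : ℤ) - j'| := by
          apply Int.one_le_abs
          intro h
          apply hne
          omega
        exact_mod_cast this
      have h4 : |((j : ℝ) - j') * u.im| ≤ 2 * κ := by
        have e : ((j : ℝ) - j') * u.im = (u.re + j * u.im) - (u.re + j' * u.im) := by ring
        rw [e]
        exact (abs_sub _ _).trans (by linarith)
      rw [abs_mul] at h4
      calc |u.im| = 1 * |u.im| := (one_mul _).symm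
        _ ≤ |(j : ℝ) - j'| * |u.im| := mul_le_mul_of_nonneg_right hd (abs_nonneg _)
        _ ≤ _ := h4
    have hjN : (j : ℝ) ≤ N := by exact_mod_cast hj.1.le
    have hre : |u.re| ≤ κ + 2 * (N * κ) := by
      have e : u.re = (u.re + j * u.im) - j * u.im := by ring
      rw [e]
      refine (abs_sub _ _).trans ?_
      have h5 : |(j : ℝ) * u.im| ≤ N * (2 * κ) := by
        rw [abs_mul, abs_of_nonneg (Nat.cast_nonneg j)]
        exact mul_le_mul hjN him (abs_nonneg _) (by positivity)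
      linarith
    have h6 : u.re ^ 2 ≤ (κ + 2 * (N * κ)) ^ 2 := by
      rw [← sq_abs u.re]; exact pow_le_pow_left₀ (abs_nonneg _) hre 2
    have h7 : u.im ^ 2 ≤ (2 * κ) ^ 2 := by
      rw [← sq_abs u.im]; exact pow_le_pow_left₀ (abs_nonneg _) him 2
    have h8 : κ + 2 * (N * κ) ≤ 2 * (κ * ((N : ℝ) + 1)) := by nlinarith
    have h9 : 2 * κ ≤ 2 * (κ * ((N : ℝ) + 1)) := by
      have : (0 : ℝ) ≤ N := Nat.cast_nonneg N
      nlinarith
    rw [hκN] at h8 h9
    have h10 : (κ + 2 * (N * κ)) ^ 2 ≤ (2 * (1 / 4)) ^ 2 :=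
      pow_le_pow_left₀ (by positivity) h8 2
    have h11 : (2 * κ) ^ 2 ≤ (2 * (1 / 4)) ^ 2 := pow_le_pow_left₀ (by positivity) h9 2
    nlinarith [norm_nonneg z]
  have h0 : ∑ j ∈ range N, (if Margin κ (dir j) z then 0 else 1) =
      ((range N).filter (fun j => ¬ Margin κ (dir j) z)).card := by
    rw [Finset.card_filter]
    refine Finset.sum_congr rfl fun j _ => ?_
    by_cases h : Margin κ (dir j) z <;> simp [h]
  rw [h0]
  exact hcard

/-! ### Near-optimal triples are near-rainbow -/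

lemma deficiency (a b c : ℂ) : 9 - (‖a - b‖ ^ 2 + ‖b - c‖ ^ 2 + ‖c - a‖ ^ 2) =
    3 * (1 - ‖a‖ ^ 2) + 3 * (1 - ‖b‖ ^ 2) + 3 * (1 - ‖c‖ ^ 2) + ‖a + b + c‖ ^ 2 := by
  simp only [Complex.sq_norm, Complex.normSq_apply, Complex.sub_re, Complex.sub_im,
    Complex.add_re, Complex.add_im]
  ring

lemma near_of_small {a b c : ℂ} (ha : ‖a‖ ≤ 1) (hb : ‖b‖ ≤ 1) (hc : ‖c‖ ≤ 1) {η : ℝ}
    (h0 : 0 < η) (h1 : η ≤ 1)
    (hD : 9 - (‖a - b‖ ^ 2 + ‖b - c‖ ^ 2 + ‖c - a‖ ^ 2) < (η / 3) ^ 4) :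
    1 / 2 ≤ ‖a‖ ∧ ((‖b - a * om‖ ≤ η ∧ ‖c - a * om ^ 2‖ ≤ η) ∨
      (‖b - a * om ^ 2‖ ≤ η ∧ ‖c - a * om‖ ≤ η)) := by
  rw [deficiency] at hD
  set t : ℝ := η / 3 with ht
  have ht0 : 0 < t := by positivity
  have ht1 : t ≤ 1 / 3 := by rw [ht]; linarith
  have ha2 : 0 ≤ 1 - ‖a‖ ^ 2 := by nlinarith [norm_nonneg a]
  have hb2 : 0 ≤ 1 - ‖b‖ ^ 2 := by nlinarith [norm_nonneg b]
  have hc2 : 0 ≤ 1 - ‖c‖ ^ 2 := by nlinarith [norm_nonneg c]
  have hs2 : 0 ≤ ‖a + b + c‖ ^ 2 := by positivity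
  have ht29 : t ^ 2 ≤ 1 / 9 := by nlinarith
  have ht9 : t ^ 4 ≤ t ^ 2 / 9 := by
    have e : t ^ 4 = t ^ 2 * t ^ 2 := by ring
    rw [e]
    nlinarith [sq_nonneg t]
  have ht4 : t ^ 4 ≤ t ^ 2 := by nlinarith [sq_nonneg t]
  have ht2 : t ^ 2 ≤ t := by nlinarith
  have hs : ‖a + b + c‖ ≤ t ^ 2 := by
    have : ‖a + b + c‖ ^ 2 ≤ (t ^ 2) ^ 2 := by nlinarith
    exact (pow_le_pow_iff_left₀ (norm_nonneg _) (by positivity) (by norm_num)).1 this
  constructor
  · by_contra hcon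
    push Not at hcon
    nlinarith [norm_nonneg a]
  -- the product
  have hprod : (b - a * om) * (b - a * om ^ 2) = b ^ 2 + a * b + a ^ 2 := by
    have e1 : om ^ 2 = -1 - om := by linear_combination om_sum
    have e3 := om_cube
    linear_combination (-(a * b)) * om_sum + a ^ 2 * e3
  have hid : b ^ 2 + a * b + a ^ 2 =
      a * b * ((1 + (‖a + b‖ ^ 2 - ‖a‖ ^ 2 - ‖b‖ ^ 2) : ℝ) : ℂ) +
        a ^ 2 * ((1 - ‖b‖ ^ 2 : ℝ) : ℂ) + b ^ 2 * ((1 - ‖a‖ ^ 2 : ℝ) : ℂ) := by
    simp only [Complex.sq_norm, Complex.normSq_apply]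
    apply Complex.ext
    · simp only [Complex.add_re, Complex.mul_re, Complex.add_im, Complex.mul_im, sq,
        Complex.ofReal_re, Complex.ofReal_im]
      ring
    · simp only [Complex.add_re, Complex.mul_re, Complex.add_im, Complex.mul_im, sq,
        Complex.ofReal_re, Complex.ofReal_im]
      ring
  have hab : |‖a + b‖ ^ 2 - ‖c‖ ^ 2| ≤ 3 * t ^ 2 := by
    have e1 : a + b = (a + b + c) - c := by ring
    have h2 : ‖a + b‖ ≤ ‖a + b + c‖ + ‖c‖ := by
      calc ‖a + b‖ = ‖(a + b + c) - c‖ := by rw [← e1]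
        _ ≤ _ := norm_sub_le _ _
    have h3 : ‖c‖ ≤ ‖a + b + c‖ + ‖a + b‖ := by
      have e2 : c = (a + b + c) - (a + b) := by ring
      calc ‖c‖ = ‖(a + b + c) - (a + b)‖ := by rw [← e2]
        _ ≤ _ := norm_sub_le _ _
    have h4 : 0 ≤ ‖a + b‖ := norm_nonneg _
    have h5 : 0 ≤ ‖c‖ := norm_nonneg _
    have h6 : 0 ≤ ‖a + b + c‖ := norm_nonneg _
    have e3 : ‖a + b‖ ^ 2 - ‖c‖ ^ 2 = (‖a + b‖ - ‖c‖) * (‖a + b‖ + ‖c‖) := by ring
    rw [e3, abs_mul, abs_of_nonneg (add_nonneg h4 h5)]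
    have h7 : |‖a + b‖ - ‖c‖| ≤ t ^ 2 := by
      rw [abs_le]; constructor <;> linarith
    have h8 : ‖a + b‖ + ‖c‖ ≤ 3 := by nlinarith
    calc |‖a + b‖ - ‖c‖| * (‖a + b‖ + ‖c‖) ≤ t ^ 2 * 3 :=
          mul_le_mul h7 h8 (by positivity) (by positivity)
      _ = _ := by ring
  have hq : ‖b ^ 2 + a * b + a ^ 2‖ ≤ 4 * t ^ 2 := by
    rw [hid]
    have hA : ‖a * b * ((1 + (‖a + b‖ ^ 2 - ‖a‖ ^ 2 - ‖b‖ ^ 2) : ℝ) : ℂ)‖ ≤
        |1 + (‖a + b‖ ^ 2 - ‖a‖ ^ 2 - ‖b‖ ^ 2)| := by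
      rw [norm_mul, norm_mul, Complex.norm_real, Real.norm_eq_abs]
      have : ‖a‖ * ‖b‖ ≤ 1 := mul_le_one₀ ha (norm_nonneg _) hb
      calc _ ≤ 1 * |1 + (‖a + b‖ ^ 2 - ‖a‖ ^ 2 - ‖b‖ ^ 2)| :=
            mul_le_mul_of_nonneg_right this (abs_nonneg _)
        _ = _ := one_mul _
    have hB : ‖a ^ 2 * ((1 - ‖b‖ ^ 2 : ℝ) : ℂ)‖ ≤ 1 - ‖b‖ ^ 2 := by
      rw [norm_mul, norm_pow, Complex.norm_real, Real.norm_eq_abs, abs_of_nonneg hb2]
      have : ‖a‖ ^ 2 ≤ 1 := by linarith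
      calc _ ≤ 1 * (1 - ‖b‖ ^ 2) := mul_le_mul_of_nonneg_right this hb2
        _ = _ := one_mul _
    have hC : ‖b ^ 2 * ((1 - ‖a‖ ^ 2 : ℝ) : ℂ)‖ ≤ 1 - ‖a‖ ^ 2 := by
      rw [norm_mul, norm_pow, Complex.norm_real, Real.norm_eq_abs, abs_of_nonneg ha2]
      have : ‖b‖ ^ 2 ≤ 1 := by linarith
      calc _ ≤ 1 * (1 - ‖a‖ ^ 2) := mul_le_mul_of_nonneg_right this ha2
        _ = _ := one_mul _
    have hE : |1 + (‖a + b‖ ^ 2 - ‖a‖ ^ 2 - ‖b‖ ^ 2)| ≤
        (1 - ‖a‖ ^ 2) + (1 - ‖b‖ ^ 2) + (1 - ‖c‖ ^ 2) + 3 * t ^ 2 := by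
      have e : 1 + (‖a + b‖ ^ 2 - ‖a‖ ^ 2 - ‖b‖ ^ 2) =
          ((1 - ‖a‖ ^ 2) + (1 - ‖b‖ ^ 2) - (1 - ‖c‖ ^ 2)) + (‖a + b‖ ^ 2 - ‖c‖ ^ 2) := by ring
      rw [e]
      refine (abs_add_le _ _).trans (add_le_add ?_ hab)
      rw [abs_le]; constructor <;> linarith
    refine (norm_add₃_le).trans ?_
    nlinarith
  rw [← hprod, norm_mul] at hq
  -- the third error is controlled by the other two
  have hthird : ∀ u v : ℂ, u + v = -a → ‖b - u‖ ≤ 2 * t → ‖c - v‖ ≤ η := by
    intro u v huv hbu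
    have e : c - v = (a + b + c) - (b - u) := by linear_combination (-1 : ℂ) * huv
    rw [e]
    refine (norm_sub_le _ _).trans ?_
    have : η = 3 * t := by rw [ht]; ring
    rw [this]
    linarith
  have hη : 2 * t ≤ η := by rw [ht]; linarith
  by_cases hcase : ‖b - a * om‖ ≤ 2 * t
  · left
    refine ⟨hcase.trans hη, hthird (a * om) (a * om ^ 2) ?_ hcase⟩
    linear_combination a * om_sum
  · right
    push Not at hcase
    have h2 : ‖b - a * om ^ 2‖ ≤ 2 * t := by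
      by_contra hcon
      push Not at hcon
      have := mul_lt_mul'' hcase hcon (by positivity) (by positivity)
      nlinarith
    refine ⟨h2.trans hη, hthird (a * om ^ 2) (a * om) ?_ h2⟩
    linear_combination a * om_sum


/-! ### The rounding theorem -/

/-- triples of vertices -/
abbrev Tri := ℕ × ℕ × ℕ

/-- contribution of a triple to the quadratic form -/
noncomputable def tval (x : ℕ → ℂ) (t : Tri) : ℝ :=
  ‖x t.1 - x t.2.1‖ ^ 2 + ‖x t.2.1 - x t.2.2‖ ^ 2 + ‖x t.2.2 - x t.1‖ ^ 2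

/-- the three vertices have different colours -/
def Good (χ : ℕ → Fin 3) (t : Tri) : Prop :=
  χ t.1 ≠ χ t.2.1 ∧ χ t.2.1 ≠ χ t.2.2 ∧ χ t.2.2 ≠ χ t.1

instance (χ : ℕ → Fin 3) (t : Tri) : Decidable (Good χ t) := by unfold Good; infer_instance

/-- number of triples that are not rainbow -/
def nbad (χ : ℕ → Fin 3) (T : List Tri) : ℕ := T.countP fun t => ! decide (Good χ t)

lemma tval_le {x : ℕ → ℂ} (hx : ∀ v, ‖x v‖ ≤ 1) (t : Tri) : tval x t ≤ 9 := by
  have h := deficiency (x t.1) (x t.2.1) (x t.2.2)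
  have h1 : ∀ v, 0 ≤ 1 - ‖x v‖ ^ 2 := fun v => by nlinarith [norm_nonneg (x v), hx v]
  have := h1 t.1
  have := h1 t.2.1
  have := h1 t.2.2
  unfold tval
  nlinarith [sq_nonneg ‖x t.1 + x t.2.1 + x t.2.2‖]

lemma triple_bound {N : ℕ} {x : ℕ → ℂ} (hx : ∀ v, ‖x v‖ ≤ 1) {η : ℝ}
    (hη : η = 1 / (8 * ((N : ℝ) + 1) ^ 2)) (t : Tri) :
    ((∑ j ∈ range N, (if Good (fun v => col (dir j) (x v)) t then 0 else 1) : ℕ) : ℝ) ≤
      9 + (N / (η / 3) ^ 4) * (9 - tval x t) := by
  have hN : (0 : ℝ) < (N : ℝ) + 1 := by positivity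
  have hη0 : 0 < η := by rw [hη]; positivity
  have hη1 : η ≤ 1 := by
    rw [hη, div_le_one (by positivity)]
    have : (0 : ℝ) ≤ N := Nat.cast_nonneg N
    nlinarith
  have hdef : 0 ≤ 9 - tval x t := by linarith [tval_le hx t]
  have hD0 : 0 < (η / 3) ^ 4 := by positivity
  by_cases hD : 9 - tval x t < (η / 3) ^ 4
  · obtain ⟨ha, hnear⟩ := near_of_small (hx t.1) (hx t.2.1) (hx t.2.2) hη0 hη1 hD
    have hc := card_no_margin (N := N) ha
    have h1 : (∑ j ∈ range N, (if Good (fun v => col (dir j) (x v)) t then 0 else 1) : ℕ) ≤ 9 := by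
      refine le_trans (Finset.sum_le_sum ?_) hc
      intro j hj
      have hjN : (j : ℝ) ≤ N := by exact_mod_cast (Finset.mem_range.1 hj).le
      by_cases hM : Margin (1 / (4 * ((N : ℝ) + 1))) (dir j) (x t.1)
      · have hgood : Good (fun v => col (dir j) (x v)) t := by
          obtain ⟨k, hk⟩ := hM
          have hκ : 2 * (η * ‖dir j‖) ≤ 1 / (4 * ((N : ℝ) + 1)) := by
            have h2 := norm_dir_le j
            have h3 : η * ‖dir j‖ ≤ η * ((N : ℝ) + 1) := by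
              apply mul_le_mul_of_nonneg_left _ hη0.le
              linarith
            have h4 : 2 * (η * ((N : ℝ) + 1)) = 1 / (4 * ((N : ℝ) + 1)) := by
              rw [hη]; field_simp; ring
            linarith
          have hk0 : col (dir j) (x t.1) = k := by
            apply col_eq
            intro l hl
            have h5 := hk l hl
            have h6 : (0 : ℝ) < 1 / (4 * ((N : ℝ) + 1)) := by positivity
            linarith
          rcases hnear with ⟨hb, hc'⟩ | ⟨hb, hc'⟩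
          · have h7 := col_near1 hκ hk hb
            have h8 := col_near2 hκ hk hc'
            unfold Good
            simp only [hk0, h7, h8]
            fin_cases k <;> decide
          · have h7 := col_near2 hκ hk hb
            have h8 := col_near1 hκ hk hc'
            unfold Good
            simp only [hk0, h7, h8]
            fin_cases k <;> decide
        rw [if_pos hgood]
        exact Nat.zero_le _
      · rw [if_neg hM]
        split_ifs <;> simp
    have h2 : ((∑ j ∈ range N, (if Good (fun v => col (dir j) (x v)) t then 0 else 1) : ℕ) : ℝ)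
        ≤ 9 := by exact_mod_cast h1
    have h3 : 0 ≤ (N / (η / 3) ^ 4) * (9 - tval x t) := by positivity
    linarith
  · push Not at hD
    have h1 : (∑ j ∈ range N, (if Good (fun v => col (dir j) (x v)) t then 0 else 1) : ℕ) ≤ N := by
      calc _ ≤ ∑ j ∈ range N, 1 := Finset.sum_le_sum fun j _ => by split_ifs <;> simp
        _ = N := by simp
    have h2 : ((∑ j ∈ range N, (if Good (fun v => col (dir j) (x v)) t then 0 else 1) : ℕ) : ℝ)
        ≤ N := by exact_mod_cast h1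
    have h3 : (N : ℝ) ≤ (N / (η / 3) ^ 4) * (9 - tval x t) := by
      rw [div_mul_eq_mul_div, le_div_iff₀ hD0]
      exact mul_le_mul_of_nonneg_left hD (Nat.cast_nonneg N)
    linarith

lemma list_bound {N : ℕ} {x : ℕ → ℂ} (hx : ∀ v, ‖x v‖ ≤ 1) {η : ℝ}
    (hη : η = 1 / (8 * ((N : ℝ) + 1) ^ 2)) (T : List Tri) :
    ((∑ j ∈ range N, nbad (fun v => col (dir j) (x v)) T : ℕ) : ℝ) ≤
      9 * T.length + (N / (η / 3) ^ 4) * (9 * T.length - (T.map (tval x)).sum) := by
  induction T with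
  | nil => simp [nbad]
  | cons t T ih =>
    have h1 : ∀ j, nbad (fun v => col (dir j) (x v)) (t :: T) =
        nbad (fun v => col (dir j) (x v)) T +
          (if Good (fun v => col (dir j) (x v)) t then 0 else 1) := by
      intro j
      unfold nbad
      rw [List.countP_cons]
      by_cases hg : Good (fun v => col (dir j) (x v)) t <;> simp [hg]
    simp only [h1, Finset.sum_add_distrib]
    have h2 := triple_bound hx hη t
    rw [List.map_cons, List.sum_cons, List.length_cons]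
    push_cast at h2 ih ⊢
    linarith

/-- **Rounding.** -/
theorem rounding {β : ℝ} (hβ : 0 < β) : ∃ δ : ℝ, 0 < δ ∧ ∀ T : List Tri,
    (∀ χ : ℕ → Fin 3, β * T.length ≤ nbad χ T) → ∀ x : ℕ → ℂ, (∀ v, ‖x v‖ ≤ 1) →
      (T.map (tval x)).sum ≤ 9 * T.length * (1 - δ) := by
  obtain ⟨N, hN⟩ := exists_nat_gt (18 / β)
  have hN0 : (0 : ℝ) < N := lt_trans (by positivity) hN
  have hNβ : 18 < N * β := by rwa [div_lt_iff₀ hβ] at hN
  set η : ℝ := 1 / (8 * ((N : ℝ) + 1) ^ 2) with hη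
  have hη0 : 0 < η := by positivity
  refine ⟨(η / 3) ^ 4 * β / 18, by positivity, ?_⟩
  intro T hT x hx
  have h1 := list_bound hx hη T
  have h2 : (N : ℝ) * (β * T.length) ≤
      ((∑ j ∈ range N, nbad (fun v => col (dir j) (x v)) T : ℕ) : ℝ) := by
    push_cast
    calc (N : ℝ) * (β * T.length) = ∑ j ∈ range N, β * (T.length : ℝ) := by
          rw [Finset.sum_const, Finset.card_range, nsmul_eq_mul]
      _ ≤ _ := Finset.sum_le_sum fun j _ => hT _
  set V := (T.map (tval x)).sum with hV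
  set D : ℝ := (η / 3) ^ 4 with hD
  have hD0 : 0 < D := by positivity
  have h3 : (N : ℝ) * (β * T.length) ≤ 9 * T.length + (N / D) * (9 * T.length - V) := h2.trans h1
  have hT0 : (0 : ℝ) ≤ T.length := Nat.cast_nonneg _
  have h4 : (N : ℝ) * (β * T.length) - 9 * T.length ≤ (N / D) * (9 * T.length - V) := by linarith
  have h5 : (N : ℝ) * β / 2 * T.length ≤ (N / D) * (9 * T.length - V) := by nlinarith
  have h6 : D * (N * β / 2 * T.length) ≤ N * (9 * T.length - V) := by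
    have := mul_le_mul_of_nonneg_left h5 hD0.le
    calc D * (N * β / 2 * T.length) ≤ D * ((N / D) * (9 * T.length - V)) := this
      _ = N * (9 * T.length - V) := by field_simp
  have h7 : D * (β / 2 * T.length) ≤ 9 * T.length - V := by
    have : N * (D * (β / 2 * T.length)) ≤ N * (9 * T.length - V) := by
      calc N * (D * (β / 2 * T.length)) = D * (N * β / 2 * T.length) := by ring
        _ ≤ _ := h6
    exact le_of_mul_le_mul_left this hN0
  have h8 : 9 * (T.length : ℝ) * (1 - D * β / 18) = 9 * T.length - D * (β / 2 * T.length) := by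
    ring
  rw [h8]
  linarith

end Pool.Agent.MP_54e0c2_lc
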